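import Pool.Agent.Run7.h177.TA.Gen
import Pool.Agent.Run7.h418.R.SpEq

/-!
Pseudo-Mordellic varieties whose symmetric differentials generate a symmetric power of the cotangent
sheaf.
-/

set_option autoImplicit false

namespace Run7.h177.TA

open LinearAlgebra.Projectivization
open Pool.Agent.W602.GT Pool.Agent.N155
open Pool.Agent.Q103.AR (Points)
open Pool.Agent.TH182.TC (PS OnX Holo)
open Run7.h418

variable {k : Type} [Field k] {n : ℕ} {ι κ τ : Type}

/-- If `Z` contains almost all points of `X` over all finite extensions then it contains the images of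
tori. -/
theorem torus_zero_gen (σ : k →+* ℂ) (F : ι → MvPolynomial (Fin (n + 1)) k) (hF : ∀ i, IsForm (F i))
    (Q : κ → MvPolynomial (Fin (n + 1)) k) (hQ : ∀ j, IsForm (Q j))
    (hfin : ∀ (L : Type) [Field L] [Algebra k L] [FiniteDimensional k L],
      (Points F L \ Points Q L).Finite) {w : ℕ} (hw : 0 < w)
    (b : Module.Basis (Fin (2 * w)) ℝ (Fin w → ℂ)) {g : (Fin w → ℂ) → PS n} (hg : Holo g)
    (hper : ∀ z i, g (z + b i) = g z) {t₁ : Fin w → ℂ} (him : ImmAt g t₁)
    (hX : ∀ t, OnX (fun i => MvPolynomial.map σ (F i)) (g t)) (j : κ) (t : Fin w → ℂ) :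
    MvPolynomial.eval (g t).rep (MvPolynomial.map σ (Q j)) = 0 := by
  by_contra hne
  obtain ⟨L, _, _, _, hinf⟩ := torus_points_gen σ F hF (Q j) (hQ j) hw b hg hper him hX ⟨t, hne⟩
  exact hinf ((hfin L).subset fun P hP => ⟨hP.1, fun h => hP.2 fun _ => h j⟩)

/-- subvarieties off `Z` are of general type -/
theorem general_off (σ : k →+* ℂ) [Fintype τ] {m : ℕ} (F : ι → MvPolynomial (Fin (n + 1)) k)
    (hF : ∀ i, IsForm (F i)) (hm : 0 < m) {s : τ → (Fin (n + 1) → ℂ) → (Fin (n + 1) → ℂ) → ℂ}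
    (hs : ∀ j, SymForm (fun i => MvPolynomial.map σ (F i)) m (s j))
    (hgen : Generates (fun i => MvPolynomial.map σ (F i)) m s)
    (Q : κ → MvPolynomial (Fin (n + 1)) k) (hQ : ∀ j, IsForm (Q j))
    (hfin : ∀ (L : Type) [Field L] [Algebra k L] [FiniteDimensional k L],
      (Points F L \ Points Q L).Finite) (K : Type) [Field K] [Algebra ℂ K] (w : ℕ)
    (y : Fin (n + 1) → K) (hw : 1 ≤ w) (hy : SubVar (fun i => MvPolynomial.map σ (F i)) K w y)
    (hyZ : ∃ j, val y (MvPolynomial.map σ (Q j)) ≠ 0) : GeneralType ℂ K w := by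
  by_contra hgt
  obtain ⟨j, hj⟩ := hyZ
  exact hj (R.van_alg (fun i => isForm_map σ (hF i)) hm hs hgen (isForm_map σ (hQ j))
    (fun q b g hq h1 h2 h3 t =>
      torus_zero_gen σ F hF Q hQ hfin hq b (R.holo_of_imm h1) h3 (h1 0) h2 j t) hw hy hgt)

end Run7.h177.TA
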