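import Pool.Agent.Q103.AR.Pts
import Pool.Agent.TH182.TC.Core

/-!
# Project TA: complex tori in varieties over number fields with finitely many rational points

Goal (Theorem A). `X = {F = 0}` is a projective variety over a number field `k`, `Z = {Q = 0}` a
hypersurface, `σ : k → ℂ`. If there is a holomorphic map `g` from a complex torus `ℂ^w / Λ`, `w > 0`, to
`X_σ`, whose derivative is injective at some point and whose image is not contained in `Z_σ`, then
there is a number field `L ⊇ k` such that `X(L) \ Z(L)` is infinite.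

Idea. `t ↦ 2 t - t₀` is a self-map of the torus with the fixed point `t₀` and the derivative `2`. The
field `M` of the functions on the torus generated by the coordinates of all maps `g (2^i t + a)` is a
finite extension of `ℂ(u)`, `u = (u_1, …, u_w)` coordinates of `X_σ` (Siegel's lemma, pieces JET, SCH,
LIP), so `M = ℂ(u)(θ)`; the self-map is given by polynomials in `u`, `θ` near `t₀` (piece KRU). All the
polynomial identities can be specialised to `kbar` (piece DES), and then near the fixed point, which is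
attracting for the `2`-adic absolute value, the orbit of a point is infinite (pieces ADI, PTS).

The pieces below are closed statements `S_XXX : Prop`; a piece is a theorem `t_XXX : S_XXX`.
-/

set_option autoImplicit false

namespace Run7.h177.TA

open MvPolynomial Filter Topology Asymptotics Metric
open Pool.Agent.W602.GT (IsForm)
open Pool.Agent.Q103.AR (Points)
open Pool.Agent.TH182.TC (PS Holo)

/-- Polynomials in the variables `U_i` (`some i`), `i < w`, and `Θ` (`none`). -/
abbrev Pl (R : Type) [CommRing R] (w : ℕ) := MvPolynomial (Option (Fin w)) R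

/-- `b ^ e * H (a / b)`, for `e` at least the degree of `H`. -/
noncomputable def hom {R : Type} [CommRing R] {w : ℕ} (e : ℕ) (a : Option (Fin w) → Pl R w)
    (b H : Pl R w) : Pl R w :=
  ∑ m ∈ H.support, C (coeff m H) * (∏ j, a j ^ m j) * b ^ (e - m.degree)

/-- The coefficient of the variable `j` in `H`. -/
noncomputable def lc {R : Type} [CommRing R] {w : ℕ} (j : Option (Fin w)) (H : Pl R w) : R :=
  coeff (Finsupp.single j 1) H

/-- A variety `V : M (U, Θ) = 0` through the origin, a self-map `(a_j / b)_j` of `V` near the origin,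
and a map `(c_0 : … : c_n)` to projective space, with the affine coordinates
`c_(l i) / c_l0 = U_i + κ i`. -/
structure Dyn (R : Type) [CommRing R] (w n : ℕ) where
  M : Pl R w
  a : Option (Fin w) → Pl R w
  b : Pl R w
  c : Fin (n + 1) → Pl R w
  l0 : Fin (n + 1)
  l : Fin w → Fin (n + 1)
  κ : Fin w → R

/-- The conditions: `V` is étale over the `U`-space at the origin, the origin is a fixed point of the
self-map, with derivative `2` in the coordinates `U`; the map `c` goes to `{F = 0}`, and the origin is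
not mapped to `{Q = 0}`. -/
structure Good {R : Type} [CommRing R] {w n : ℕ} {ι : Type}
    (F : ι → MvPolynomial (Fin (n + 1)) R) (Q : MvPolynomial (Fin (n + 1)) R) (D : Dyn R w n) :
    Prop where
  M0 : constantCoeff D.M = 0
  M1 : IsUnit (lc none D.M)
  b0 : constantCoeff D.b = 1
  a0 : ∀ j, constantCoeff (D.a j) = 0
  lin : ∀ i j, lc (some j) (D.a (some i)) * lc none D.M - lc none (D.a (some i)) * lc (some j) D.M =
    if i = j then 2 * lc none D.M else 0
  inv : ∃ e, (∀ m ∈ D.M.support, m.degree ≤ e) ∧ D.M ∣ hom e D.a D.b D.M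
  eqn : ∀ i, D.M ∣ aeval D.c (F i)
  c0 : IsUnit (constantCoeff (D.c D.l0))
  cl : ∀ i, D.c (D.l i) = D.c D.l0 * (X (some i) + C (D.κ i))
  q0 : IsUnit (constantCoeff (aeval D.c Q))

/-! ### Piece ADI: the `2`-adic dynamics -/

/-- `K` is an algebraically closed field with a nonarchimedean absolute value with `|2| < 1`. Given
good data over `K` there are points `(u, θ) = (P n j)_j` of `V` with `P n (some i)`-vectors pairwise
different, such that `c_l0` and `Q (c)` do not vanish there, and such that all `P (n + 1)` are obtained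
from `P n` by the self-map. Proof: choose `u = (2 ^ N, 0, …, 0)`, `N` large, and a root `θ` of
`M (u, Θ)` with `|θ|` small (the constant coefficient of `M (u, Θ)` is small, the linear one is close to
`lc none M ≠ 0`; if all the roots `θ_i` had absolute value `≥ ρ`, the quotient of the linear and the
constant coefficient, `- ∑ 1 / θ_i`, would be bounded by `1 / ρ`). If `M (u, θ) = 0`, `|u| = max |u_i|`
and `|θ|` are small then `|θ| ≤ C |u|`, `|b (u, θ)| = 1`, and the new point `(u', θ') = (a_j / b)_j`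
satisfies `M (u', θ') = 0`, `|u' - 2 u| ≤ C |u| ^ 2` by `Good.lin`, so `|u'| = |2| |u|`. -/
def S_ADI : Prop :=
  ∀ (K : Type) [Field K] [IsAlgClosed K] [CharZero K] (v : AbsoluteValue K ℝ),
    IsNonarchimedean v → v 2 < 1 → ∀ (w n : ℕ), 0 < w → ∀ (ι : Type)
    (F : ι → MvPolynomial (Fin (n + 1)) K) (Q : MvPolynomial (Fin (n + 1)) K) (D : Dyn K w n),
    Good F Q D → ∃ P : ℕ → Option (Fin w) → K,
      (∀ n, eval (P n) D.M = 0) ∧ (∀ n, eval (P n) D.b ≠ 0) ∧
      (∀ n j, P (n + 1) j = eval (P n) (D.a j) / eval (P n) D.b) ∧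
      (∀ n, eval (P n) (D.c D.l0) ≠ 0) ∧ (∀ n, eval (P n) (aeval D.c Q) ≠ 0) ∧
      (∀ i, ∃ N : ℕ, P 0 (some i) = 2 ^ N ∨ P 0 (some i) = 0) ∧
      Function.Injective fun n => fun i => P n (some i)

/-! ### Piece PTS: infinitely many points over a number field -/

/-- Use `S_ADI` for `K = AlgebraicClosure k`, with the absolute value which is induced by an embedding
into `PadicAlgCl 2`. The points `P n` have coordinates in the finite extension `L` of `k` generated by
the coefficients of the polynomials `M`, `a`, `b`, `c` and by `P 0` (induction on `n`). -/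
def S_PTS : Prop :=
  ∀ (k : Type) [Field k] [NumberField k] (w n : ℕ), 0 < w → ∀ (ι : Type)
    (F : ι → MvPolynomial (Fin (n + 1)) k) (Q : MvPolynomial (Fin (n + 1)) k),
    (∀ i, IsForm (F i)) → IsForm Q → ∀ D : Dyn (AlgebraicClosure k) w n,
    Good (fun i => map (algebraMap k (AlgebraicClosure k)) (F i))
      (map (algebraMap k (AlgebraicClosure k)) Q) D →
    ∃ (L : Type) (_ : Field L) (_ : NumberField L) (_ : Algebra k L),
      (Points F L \ Points (fun _ : Unit => Q) L).Infinite

/-! ### Piece DES: specialisation -/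

/-- The coefficients of the data over `ℂ` and of the quotients in the divisibility conditions generate a
finitely generated `k`-algebra `R ⊆ ℂ` (`ℂ` is a `k`-algebra by `σ`), together with the inverses of the
units. There is a homomorphism of `k`-algebras from `R` to `AlgebraicClosure k` (Nullstellensatz); apply
it to all polynomials. (`F` can have infinitely many members: replace it by a finite subfamily which
generates the same ideal, or use that the ideal of all `G` with `M ∣ aeval c G` is finitely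
generated over `k[x]`.) -/
def S_DES : Prop :=
  ∀ (k : Type) [Field k] [NumberField k] (σ : k →+* ℂ) (w n : ℕ) (ι : Type)
    (F : ι → MvPolynomial (Fin (n + 1)) k) (Q : MvPolynomial (Fin (n + 1)) k) (D : Dyn ℂ w n),
    Good (fun i => map σ (F i)) (map σ Q) D →
    ∃ D' : Dyn (AlgebraicClosure k) w n,
      Good (fun i => map (algebraMap k (AlgebraicClosure k)) (F i))
        (map (algebraMap k (AlgebraicClosure k)) Q) D'

/-! ### Piece TAY: Taylor polynomials -/

/-- Taylor polynomials of analytic functions of several variables, and their uniqueness: a polynomial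
of degree `< N` which is `O(‖t‖ ^ N)` at the origin is zero. (`HasFPowerSeriesAt.isBigO_sub_partialSum_pow`
and expansion of the multilinear maps in the standard basis; uniqueness: restrict to lines.) -/
def S_TAY : Prop :=
  ∀ w : ℕ, (∀ (f : (Fin w → ℂ) → ℂ), AnalyticAt ℂ f 0 → ∀ N : ℕ,
      ∃ H : MvPolynomial (Fin w) ℂ, (∀ m ∈ H.support, m.degree < N) ∧
        (fun t => f t - eval t H) =O[𝓝 0] fun t => ‖t‖ ^ N) ∧
    ∀ (N : ℕ) (H : MvPolynomial (Fin w) ℂ), (∀ m ∈ H.support, m.degree < N) →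
      (fun t => eval t H) =O[𝓝 0] (fun t : Fin w → ℂ => ‖t‖ ^ N) → H = 0

/-! ### Piece JET: linear combinations which vanish to a high order at given points (uses `S_TAY`) -/

/-- There are at most `K ^ w` monomials of degree `< K` in `w` variables. -/
def S_JET : Prop :=
  ∀ (w N K r : ℕ) (c : Fin r → (Fin w → ℂ)) (f : Fin r → Fin N → (Fin w → ℂ) → ℂ),
    (∀ x j, AnalyticAt ℂ (f x j) (c x)) → r * K ^ w < N → ∃ a : Fin N → ℂ, a ≠ 0 ∧
      ∀ x, (fun t => ∑ j, a j * f x j t) =O[𝓝 (c x)] fun t => ‖t - c x‖ ^ K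

/-! ### Piece SCH: the lemma of Schwarz -/

/-- The lemma of Schwarz for a zero of order `K`, in several variables (restrict to lines). -/
def S_SCH : Prop :=
  ∀ (w K : ℕ) (F : (Fin w → ℂ) → ℂ) (c : Fin w → ℂ) (R B : ℝ), 0 < R →
    (∀ t ∈ ball c R, AnalyticAt ℂ F t) → (∀ t ∈ ball c R, ‖F t‖ ≤ B) →
    (F =O[𝓝 c] fun t => ‖t - c‖ ^ K) → ∀ t, dist t c ≤ R / 2 → ‖F t‖ ≤ B / 2 ^ K

/-! ### Piece KRU: functions of `u`, `θ` which are analytic at a point are regular (uses `S_TAY`) -/

/-- `u_1, …, u_w` are local coordinates at `0` with `u (0) = 0`, `θ` is analytic with `θ (0) = 0`,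
`M (u, θ) = 0` and `lc none M ≠ 0`. If `f` is analytic at `0` and `q (u, θ) f = p (u, θ)` near `0`, then
`p` lies in the ideal generated by `q` and `M` after multiplication with a polynomial `r` with constant
coefficient `1`.

Proof. `S` is the polynomial ring, `J = (q, M)`, `𝔓` the ideal of the polynomials with constant
coefficient `0`, which is generated by the `U_i` and `Θ`. By the theorem of Krull
(`Ideal.mem_iInf_smul_pow_eq_bot_iff`) for the module `S / J`, it is enough that `p ∈ J + 𝔓 ^ N` for all `N`.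
(1) `M = Θ E + ∑ U_i F_i` with `E (0) = lc none M ≠ 0`, and `E` is invertible modulo `𝔓 ^ N`, so
`Θ ∈ (U) + (M) + 𝔓 ^ N`. Hence every `h ∈ S` is `h₀ (U) + m + h₁` with `h₀` a polynomial of degree `< N` in
`U`, `m ∈ (M)` and `h₁ ∈ 𝔓 ^ N`. (2) If moreover `h (u, θ) = O(‖t‖ ^ N)` then `h₀ (u (t)) = O(‖t‖ ^ N)`,
and `h₀ = 0` (`u` has an analytic local inverse; uniqueness in `S_TAY`), so `h ∈ (M) + 𝔓 ^ N`.
(3) There is a polynomial `h_N` with `f - h_N (u) = O(‖t‖ ^ N)` (`S_TAY` for `f` in the coordinates `u`).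
Apply (2) to `h = p - q h_N (U)`. -/
def S_KRU : Prop :=
  ∀ (w : ℕ) (u : Fin w → (Fin w → ℂ) → ℂ) (θ f : (Fin w → ℂ) → ℂ) (M p q : Pl ℂ w),
    (∀ i, AnalyticAt ℂ (u i) 0) → AnalyticAt ℂ θ 0 → AnalyticAt ℂ f 0 → (∀ i, u i 0 = 0) → θ 0 = 0 →
    (∀ v : Fin w → ℂ, (∀ i, fderiv ℂ (u i) 0 v = 0) → v = 0) → lc none M ≠ 0 →
    (∀ᶠ t in 𝓝 0, eval (fun o => o.elim (θ t) fun i => u i t) M = 0) →
    (∀ᶠ t in 𝓝 0, eval (fun o => o.elim (θ t) fun i => u i t) q * f t =
      eval (fun o => o.elim (θ t) fun i => u i t) p) →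
    ∃ r a s : Pl ℂ w, constantCoeff r = 1 ∧ r * p = q * a + M * s

/-! ### Piece LIP: a Lipschitz condition -/

/-- `|⟨x, y⟩| ^ 2 ≥ (1 - C ^ 2 |s - t| ^ 2) |x| ^ 2 |y| ^ 2` for coordinates `x`, `y` of `g s`, `g t`
(independent of the choice of the coordinates). For coordinates `φ` of `g` near a point which are
holomorphic without common zero, `x = φ s`, `y = φ t`: `|x| ^ 2 - |⟨x, y⟩| ^ 2 / |y| ^ 2` is the square of
the distance of `x` to the line `ℂ y`, at most `|φ s - φ t| ^ 2 ≤ C' |s - t| ^ 2`. Globally: compactness of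
the fundamental domain (`g` is periodic), and the inequality is trivial for `|s - t| ≥ 1 / C`. -/
def S_LIP : Prop :=
  ∀ (w n : ℕ) (b : Module.Basis (Fin (2 * w)) ℝ (Fin w → ℂ)) (g : (Fin w → ℂ) → PS n), Holo g →
    (∀ z i, g (z + b i) = g z) → ∃ C : ℝ, 0 < C ∧ ∀ s t : Fin w → ℂ,
      (1 - C ^ 2 * ‖s - t‖ ^ 2) * (∑ i, ‖(g s).rep i‖ ^ 2) * (∑ i, ‖(g t).rep i‖ ^ 2) ≤
        ‖∑ i, (g s).rep i * (starRingEnd ℂ) ((g t).rep i)‖ ^ 2

/-! ### Forms in the coordinates of the maps `g (2 ^ i t + a)` -/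

/-- The map `t ↦ g (2 ^ i t + a)`, `j = (i, a)`. -/
noncomputable def mp {w n : ℕ} (g : (Fin w → ℂ) → PS n) (j : ℕ × (Fin w → ℂ)) (t : Fin w → ℂ) : PS n :=
  g ((2 : ℂ) ^ j.1 • t + j.2)

/-- The value of `P` at coordinates of the points `g (2 ^ i t + a)`. -/
noncomputable def ev {w n : ℕ} (g : (Fin w → ℂ) → PS n)
    (P : MvPolynomial ((ℕ × (Fin w → ℂ)) × Fin (n + 1)) ℂ) (t : Fin w → ℂ) : ℂ :=
  eval (fun x => (mp g x.1 t).rep x.2) P

/-- `P` is homogeneous of degree `β j` in the variables `(j, 0), …, (j, n)`, for all `j`. -/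
def MH {J : Type} {n : ℕ} (β : J →₀ ℕ) (P : MvPolynomial (J × Fin (n + 1)) ℂ) : Prop :=
  ∀ m ∈ P.support, ∀ j, ∑ l, m (j, l) = β j

/-! ### Piece IDT: the identity theorem -/

/-- If `φ j` are holomorphic coordinates of `mp g j` near `t₀`, `j ∈ β.support`, then
`ev g P t = c (t) * P (φ j (t))` with the same `c (t) ≠ 0` for all `P` with `MH β P`. So quotients are
analytic, and if `ev g P` vanishes on a nonempty open set then it vanishes identically (identity theorem
for analytic functions on a ball, connectedness of `ℂ ^ w`). -/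
def S_IDT : Prop :=
  ∀ (w n : ℕ) (g : (Fin w → ℂ) → PS n), Holo g → ∀ (β : (ℕ × (Fin w → ℂ)) →₀ ℕ)
    (P : MvPolynomial ((ℕ × (Fin w → ℂ)) × Fin (n + 1)) ℂ), MH β P →
    ((∀ t, ev g P t = 0) ∨ (IsOpen {t | ev g P t ≠ 0} ∧ Dense {t | ev g P t ≠ 0})) ∧
    ∀ Q, MH β Q → ∀ t₀, ev g Q t₀ ≠ 0 → AnalyticAt ℂ (fun t => ev g P t / ev g Q t) t₀

/-! ### Piece SIE: the lemma of Siegel (uses `S_LIP`, `S_JET`, `S_SCH`) -/

/-- A bound `D` for the degree of all quotients `f = P / Q` over the field generated by the quotients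
`u_i = x_(l i) / x_l0` of coordinates of `g`, which does not depend on `P`, `Q`: there is a relation
`∑ c_(α, b) u ^ α f ^ b = 0` with `α_i ≤ A`, `b < D`.

Proof. `C` is the constant of `S_LIP`, `S = ∑ ‖b i‖`, `R = 2 S / M` with `M` so large that
`(2 ^ i C R) ^ 2 ≤ 1 / 2` for all `(i, a) ∈ β.support` and `(C R) ^ 2 ≤ 1 / 2`. The centres are the `M ^ (2 w)`
points `c = ∑ (e_i / M) b_i`, `0 ≤ e_i < M`; all `t` are at distance `≤ R / 2` from a centre modulo the
lattice. For a centre `c`, a map `h` (`g` or `mp g j`) and coordinates `x` of `h t` put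
`λ (x) = ⟨x, y⟩ / |y|`, `y = (h c).rep`; then `|λ (x)| ≤ |x|`, and `|λ (x)| ^ 2 ≥ (1 - (2 ^ i C R) ^ 2) |x| ^ 2` for
`‖t - c‖ < R` by `S_LIP` (note `‖(2 ^ i t + a) - (2 ^ i c + a)‖ = 2 ^ i ‖t - c‖`). The summand `s (t)` for
`(α, b)` is a value of a form of degree `w A` in the coordinates of `g t` and `(D - 1) β j` in those of
`mp g j t`; divided by `λ ^ (w A) ∏ λ_j ^ ((D - 1) β j)` it is analytic on `ball c R`. Let `B = (D - 1) ∑ β j` and
`K = ⌈2 C ^ 2 R ^ 2 w A⌉ + B + 1`. If `N = D (A + 1) ^ w > M ^ (2 w) K ^ w` (true for large `A` if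
`D > (8 C ^ 2 S ^ 2 w) ^ w`) then by `S_JET` there is a nontrivial combination with a zero of order `K` at
all centres. Let `m` be the maximum over `t` of `|s (t)| / (|x| ^ (w A) ∏ |x_j| ^ ((D - 1) β j))` (a
continuous periodic function). By `S_SCH` on `ball c R`,
`m ≤ 2 ^ (-K) (1 - C ^ 2 R ^ 2) ^ (- w A / 2) 2 ^ (B / 2) m`, and `(1 - x)⁻¹ ≤ exp (2 x)` for `x ≤ 1 / 2`, so `m = 0`. -/
def S_SIE : Prop :=
  ∀ (w n : ℕ) (b : Module.Basis (Fin (2 * w)) ℝ (Fin w → ℂ)) (g : (Fin w → ℂ) → PS n), 0 < w → Holo g →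
    (∀ z i, g (z + b i) = g z) → ∃ D : ℕ, ∀ (β : (ℕ × (Fin w → ℂ)) →₀ ℕ)
    (P Q : MvPolynomial ((ℕ × (Fin w → ℂ)) × Fin (n + 1)) ℂ), MH β P → MH β Q →
    ∀ (l0 : Fin (n + 1)) (l : Fin w → Fin (n + 1)), ∃ (A : ℕ) (c : (Fin w → Fin (A + 1)) → Fin D → ℂ),
      c ≠ 0 ∧ ∀ t, ∑ α, ∑ b, c α b * (g t).rep l0 ^ (w * A - ∑ i, (α i : ℕ)) *
        (∏ i, (g t).rep (l i) ^ (α i : ℕ)) * ev g P t ^ (b : ℕ) * ev g Q t ^ (D - 1 - (b : ℕ)) = 0

end Run7.h177.TA
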