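import Pool.Agent.N155.L.SFin
import Pool.Agent.N154.GG.Geo2

/-!
Curves of bounded derivative.
-/

set_option autoImplicit false

open Set Filter Topology LinearAlgebra.Projectivization

namespace Run7.h177.TA

open Pool.Agent.Y190.OP Pool.Agent.N155 Pool.Agent.N154.GG

variable {n : ℕ}

theorem bddDer_of {f : ℂ → ℙ ℂ (Fin (n + 1) → ℂ)} {B : ℝ}
    (hB : ∀ z, ‖fderiv ℝ (fun z => Phi (f z).rep) z‖ ≤ B) : BoundedDer f := by
  have hB0 : 0 ≤ B := (norm_nonneg _).trans (hB 0)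
  refine ⟨2 * (n + 1) * B, fun V g hV hg hfg z hz i j => ?_⟩
  have hdg : DifferentiableAt ℂ g z := (hg z hz).differentiableAt (hV.mem_nhds hz)
  have hcong : (fun w => Phi (f w).rep) =ᶠ[𝓝 z] fun w => Phi (g w) := by
    filter_upwards [hV.mem_nhds hz] with w hw
    obtain ⟨h0, he⟩ := hfg w hw
    rw [he, Phi_rep_mk]
  have hgz : g z ≠ 0 := (hfg z hz).1
  have hPd : DifferentiableAt ℝ (fun w => Phi (g w)) z := by
    have h1 : DifferentiableAt ℝ (Phi : (Fin (n + 1) → ℂ) → Mat (n + 1)) (g z) :=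
      (contDiffAt_Phi hgz).differentiableAt (by norm_num)
    exact h1.comp z (hdg.restrictScalars ℝ)
  set E : Mat (n + 1) := fderiv ℝ (fun w => Phi (g w)) z 1 with hE
  have hEB : ∀ a b, ‖E a b‖ ≤ B := by
    intro a b
    have h1 : ‖E‖ ≤ B := by
      have h2 := ContinuousLinearMap.le_opNorm (fderiv ℝ (fun w => Phi (g w)) z) 1
      rw [norm_one, mul_one, ← hcong.fderiv_eq] at h2
      rw [hE, ← hcong.fderiv_eq]
      exact h2.trans (hB z)
    exact ((norm_le_pi_norm (E a) b).trans (norm_le_pi_norm E a)).trans h1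
  -- real derivatives in the direction 1
  set γ : ℝ → ℂ := fun s => z + s with hγ
  have hγd : HasDerivAt γ 1 0 := by
    have h1 : HasDerivAt (fun s : ℝ => (s : ℂ)) 1 0 := Complex.ofRealCLM.hasDerivAt
    exact h1.const_add z
  have hγ0 : γ 0 = z := by simp [hγ]
  set g' : Fin (n + 1) → ℂ := fun k => deriv (fun w => g w k) z with hg'
  have hgd : ∀ k, HasDerivAt (fun s : ℝ => g (γ s) k) (g' k) 0 := by
    intro k
    have h1 : HasDerivAt (fun w => g w k) (g' k) z := (differentiableAt_pi.1 hdg k).hasDerivAt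
    have h2 : HasDerivAt (fun w => g w k) (g' k) (γ 0) := by rwa [hγ0]
    have h3 := h2.comp_of_eq (0 : ℝ) hγd rfl
    rw [mul_one] at h3
    exact h3
  have hPd' : HasDerivAt (fun s : ℝ => Phi (g (γ s))) E 0 := by
    have h1 : HasFDerivAt (fun w => Phi (g w)) (fderiv ℝ (fun w => Phi (g w)) z) (γ 0) := by
      rw [hγ0]
      exact hPd.hasFDerivAt
    have h2 := h1.comp_hasDerivAt (0 : ℝ) hγd
    exact h2
  have hPe : ∀ a b, HasDerivAt (fun s : ℝ => Phi (g (γ s)) a b) (E a b) 0 := fun a b =>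
    hasDerivAt_pi.1 (hasDerivAt_pi.1 hPd' a) b
  have hne : ∀ᶠ s in 𝓝 (0 : ℝ), g (γ s) ≠ 0 := by
    have h1 : Tendsto γ (𝓝 0) (𝓝 z) := by
      have := hγd.continuousAt.tendsto
      rwa [hγ0] at this
    filter_upwards [h1.eventually (hV.mem_nhds hz)] with s hs
    exact (hfg _ hs).1
  have hrel : ∀ u : Fin (n + 1) → ℂ, u ≠ 0 → ∀ a, ∑ b, Phi u a b * u b = u a := by
    intro u hu a
    have h0 := nsq_ne hu
    unfold Phi
    have h1 : ∑ b, u a * (starRingEnd ℂ) (u b) / nsq u * u b = u a / nsq u * nsq u := by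
      conv_rhs => rw [nsq, Finset.mul_sum]
      refine Finset.sum_congr rfl fun b _ => ?_
      rw [show (∑ l, u l * (starRingEnd ℂ) (u l)) = nsq u from rfl]
      ring
    rw [h1, div_mul_cancel₀ _ h0]
  set lam : ℂ := (∑ b, (starRingEnd ℂ) (g z b) * g' b) / nsq (g z) with hlam
  have key : ∀ a, g' a = ∑ b, E a b * g z b + lam * g z a := by
    intro a
    have h1 : HasDerivAt (fun s : ℝ => ∑ b, Phi (g (γ s)) a b * g (γ s) b)
        (∑ b, (E a b * g (γ 0) b + Phi (g (γ 0)) a b * g' b)) 0 :=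
      HasDerivAt.fun_sum fun b _ => (hPe a b).mul (hgd b)
    have h2 : (fun s : ℝ => ∑ b, Phi (g (γ s)) a b * g (γ s) b) =ᶠ[𝓝 0] fun s => g (γ s) a := by
      filter_upwards [hne] with s hs
      exact hrel _ hs a
    have h3 := (h1.congr_of_eventuallyEq h2.symm).unique (hgd a)
    rw [← h3, hγ0, Finset.sum_add_distrib]
    congr 1
    rw [hlam, div_mul_eq_mul_div, Finset.sum_mul, Finset.sum_div]
    refine Finset.sum_congr rfl fun b _ => ?_
    unfold Phi
    ring
  have hS : ∀ a b, ‖g z a‖ * ‖g z b‖ ≤ ∑ k, ‖g z k‖ ^ 2 := by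
    intro a b
    have h1 : ∀ k, ‖g z k‖ ^ 2 ≤ ∑ k, ‖g z k‖ ^ 2 := fun k =>
      Finset.single_le_sum (f := fun k => ‖g z k‖ ^ 2) (fun _ _ => by positivity) (Finset.mem_univ k)
    nlinarith [h1 a, h1 b, sq_nonneg (‖g z a‖ - ‖g z b‖)]
  have hS0 : 0 ≤ ∑ k, ‖g z k‖ ^ 2 := Finset.sum_nonneg fun _ _ => by positivity
  have hbd : ∀ a b, ‖g z a * ∑ k, E b k * g z k‖ ≤ (n + 1) * B * ∑ k, ‖g z k‖ ^ 2 := by
    intro a b
    rw [norm_mul]
    calc ‖g z a‖ * ‖∑ k, E b k * g z k‖ ≤ ‖g z a‖ * ∑ k, ‖E b k * g z k‖ :=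
          mul_le_mul_of_nonneg_left (norm_sum_le _ _) (norm_nonneg _)
      _ = ∑ k, ‖E b k‖ * (‖g z a‖ * ‖g z k‖) := by
          rw [Finset.mul_sum]
          refine Finset.sum_congr rfl fun k _ => ?_
          rw [norm_mul]
          ring
      _ ≤ ∑ _k : Fin (n + 1), B * ∑ k, ‖g z k‖ ^ 2 :=
          Finset.sum_le_sum fun k _ => mul_le_mul (hEB b k) (hS a k) (by positivity) hB0
      _ = _ := by
          rw [Finset.sum_const, Finset.card_univ, Fintype.card_fin, nsmul_eq_mul]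
          push_cast
          ring
  have hfin : g z i * deriv (fun w => g w j) z - g z j * deriv (fun w => g w i) z =
      g z i * ∑ k, E j k * g z k - g z j * ∑ k, E i k * g z k := by
    have h1 := key i
    have h2 := key j
    simp only [hg'] at h1 h2
    rw [h1, h2]
    ring
  rw [hfin]
  refine (norm_sub_le _ _).trans ?_
  have h1 := hbd i j
  have h2 := hbd j i
  linarith

end Run7.h177.TA
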