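import Pool.Agent.Run7.h177.TA.Iface

/-!
The field of the quotients of forms in the coordinates of the maps `g (2 ^ i t + a)`.
-/

set_option autoImplicit false

namespace Run7.h177.TA

open MvPolynomial Filter Topology
open Pool.Agent.TH182.TC (PS Holo)

variable {w n : ℕ}

/-- the conclusions of `S_IDT` -/
structure Idt (g : (Fin w → ℂ) → PS n) : Prop where
  dich : ∀ (β : (ℕ × (Fin w → ℂ)) →₀ ℕ) (P : MvPolynomial ((ℕ × (Fin w → ℂ)) × Fin (n + 1)) ℂ),
    MH β P → (∀ t, ev g P t = 0) ∨ (IsOpen {t | ev g P t ≠ 0} ∧ Dense {t | ev g P t ≠ 0})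
  an : ∀ (β : (ℕ × (Fin w → ℂ)) →₀ ℕ) (P Q : MvPolynomial ((ℕ × (Fin w → ℂ)) × Fin (n + 1)) ℂ),
    MH β P → MH β Q → ∀ t₀, ev g Q t₀ ≠ 0 → AnalyticAt ℂ (fun t => ev g P t / ev g Q t) t₀

theorem idt_of (h : S_IDT) {g : (Fin w → ℂ) → PS n} (hg : Holo g) : Idt g :=
  ⟨fun β P hP => (h w n g hg β P hP).1, fun β P Q hP hQ t₀ h0 => (h w n g hg β P hP).2 Q hQ t₀ h0⟩

/-! ### multihomogeneous forms -/

section mh

variable {J : Type} {β β' : J →₀ ℕ} {P Q : MvPolynomial (J × Fin (n + 1)) ℂ}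

theorem MH.zero : MH β (0 : MvPolynomial (J × Fin (n + 1)) ℂ) := by
  intro m hm
  simp at hm

theorem MH.C (c : ℂ) : MH (0 : J →₀ ℕ) (C c : MvPolynomial (J × Fin (n + 1)) ℂ) := by
  classical
  intro m hm j
  rw [mem_support_iff, coeff_C] at hm
  by_cases h : 0 = m
  · rw [← h]; simp
  · rw [if_neg h] at hm; exact absurd rfl hm

theorem MH.add (hP : MH β P) (hQ : MH β Q) : MH β (P + Q) := by
  classical
  intro m hm j
  rcases Finset.mem_union.1 (support_add hm) with h | h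
  · exact hP m h j
  · exact hQ m h j

theorem MH.mul (hP : MH β P) (hQ : MH β' Q) : MH (β + β') (P * Q) := by
  classical
  intro m hm j
  obtain ⟨a, ha, b, hb, rfl⟩ := Finset.mem_add.1 (support_mul P Q hm)
  rw [Finsupp.add_apply, ← hP a ha j, ← hQ b hb j, ← Finset.sum_add_distrib]
  exact Finset.sum_congr rfl fun l _ => rfl

theorem MH.neg (hP : MH β P) : MH β (-P) := by
  intro m hm j
  rw [support_neg] at hm
  exact hP m hm j

theorem MH.X (j : J) (l : Fin (n + 1)) :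
    MH (Finsupp.single j 1) (X (j, l) : MvPolynomial (J × Fin (n + 1)) ℂ) := by
  classical
  intro m hm i
  rw [support_X, Finset.mem_singleton] at hm
  rw [hm]
  by_cases h : j = i
  · subst h
    rw [Finsupp.single_eq_same, Finset.sum_eq_single l]
    · rw [Finsupp.single_eq_same]
    · intro b _ hb
      rw [Finsupp.single_apply, if_neg]
      intro h
      exact hb (congrArg Prod.snd h).symm
    · intro h; exact absurd (Finset.mem_univ _) h
  · rw [Finsupp.single_apply, if_neg h]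
    refine Finset.sum_eq_zero fun l' _ => ?_
    rw [Finsupp.single_apply, if_neg]
    intro h'
    exact h (congrArg Prod.fst h')

theorem MH.rename {J' : Type} {f : J → J'} (hf : Function.Injective f) (hP : MH β P) :
    MH (β.mapDomain f) (MvPolynomial.rename (fun x : J × Fin (n + 1) => (f x.1, x.2)) P) := by
  classical
  have hf' : Function.Injective (fun x : J × Fin (n + 1) => (f x.1, x.2)) := by
    rintro ⟨a, b⟩ ⟨a', b'⟩ h
    simp only [Prod.mk.injEq] at h
    rw [hf h.1, h.2]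
  intro m hm j
  rw [support_rename_of_injective hf', Finset.mem_image] at hm
  obtain ⟨m', hm', rfl⟩ := hm
  by_cases h : j ∈ Set.range f
  · obtain ⟨i, rfl⟩ := h
    rw [Finsupp.mapDomain_apply hf, ← hP m' hm' i]
    refine Finset.sum_congr rfl fun l _ => ?_
    exact Finsupp.mapDomain_apply hf' m' (i, l)
  · rw [Finsupp.mapDomain_of_notMem_range _ _ h]
    refine Finset.sum_eq_zero fun l _ => ?_
    refine Finsupp.mapDomain_of_notMem_range _ _ ?_
    rintro ⟨⟨a, b⟩, hab⟩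
    exact h ⟨a, (congrArg Prod.fst hab)⟩

end mh

/-! ### values -/

section ev

variable {g : (Fin w → ℂ) → PS n} {β β' : (ℕ × (Fin w → ℂ)) →₀ ℕ}
  {P Q P' Q' : MvPolynomial ((ℕ × (Fin w → ℂ)) × Fin (n + 1)) ℂ}

theorem ev_add (t : Fin w → ℂ) : ev g (P + Q) t = ev g P t + ev g Q t := map_add _ _ _
theorem ev_mul (t : Fin w → ℂ) : ev g (P * Q) t = ev g P t * ev g Q t := map_mul _ _ _
theorem ev_neg (t : Fin w → ℂ) : ev g (-P) t = -ev g P t := map_neg _ _
theorem ev_C (c : ℂ) (t : Fin w → ℂ) : ev g (C c) t = c := eval_C _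

theorem mp_zero (t : Fin w → ℂ) : mp g (0, 0) t = g t := by
  unfold mp
  simp

/-- the action of `t ↦ 2 ^ m t + a` on the indices -/
noncomputable def shift (m : ℕ) (a : Fin w → ℂ) (j : ℕ × (Fin w → ℂ)) : ℕ × (Fin w → ℂ) :=
  (j.1 + m, (2 : ℂ) ^ j.1 • a + j.2)

theorem shift_inj (m : ℕ) (a : Fin w → ℂ) : Function.Injective (shift m a) := by
  rintro ⟨i, b⟩ ⟨i', b'⟩ h
  simp only [shift, Prod.mk.injEq, add_left_inj] at h
  obtain ⟨rfl, h⟩ := h
  rw [add_right_inj] at h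
  rw [h]

theorem mp_shift (m : ℕ) (a : Fin w → ℂ) (j : ℕ × (Fin w → ℂ)) (t : Fin w → ℂ) :
    mp g j ((2 : ℂ) ^ m • t + a) = mp g (shift m a j) t := by
  unfold mp shift
  rw [smul_add, smul_smul, ← pow_add, add_assoc]

theorem ev_shift (m : ℕ) (a : Fin w → ℂ) (t : Fin w → ℂ) :
    ev g P ((2 : ℂ) ^ m • t + a) =
      ev g (rename (fun x : (ℕ × (Fin w → ℂ)) × Fin (n + 1) => (shift m a x.1, x.2)) P) t := by
  unfold ev
  rw [eval_rename]
  congr 2
  funext x
  rw [mp_shift]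
  rfl

/-- the homeomorphism `t ↦ 2 ^ m t + a` -/
noncomputable def aff (m : ℕ) (a : Fin w → ℂ) : (Fin w → ℂ) ≃ₜ (Fin w → ℂ) :=
  (Homeomorph.smulOfNeZero ((2 : ℂ) ^ m) (pow_ne_zero _ two_ne_zero)).trans (Homeomorph.addRight a)

theorem aff_apply (m : ℕ) (a t : Fin w → ℂ) : aff m a t = (2 : ℂ) ^ m • t + a := rfl

theorem tendsto_residual {X : Type} [TopologicalSpace X] [BaireSpace X] (f : X ≃ₜ X) :
    Tendsto f (residual X) (residual X) := by
  intro s hs
  obtain ⟨t, ht, h1, h2⟩ := mem_residual.1 hs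
  exact mem_residual.2 ⟨f ⁻¹' t, Set.preimage_mono ht, h1.preimage f.continuous,
    h2.preimage f.isOpenMap⟩

end ev

/-! ### the field -/

section fld

variable {g : (Fin w → ℂ) → PS n}

/-- functions modulo equality on residual sets -/
abbrev Gm (w : ℕ) := Filter.Germ (residual (Fin w → ℂ)) ℂ

instance : (residual (Fin w → ℂ)).NeBot := by
  rw [Filter.neBot_iff]
  intro h
  have h1 : (∅ : Set (Fin w → ℂ)) ∈ residual (Fin w → ℂ) := by rw [h]; exact Filter.mem_bot
  have h2 := dense_of_mem_residual h1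
  exact h2.nonempty.ne_empty rfl

noncomputable instance : Algebra ℂ (Gm w) :=
  Algebra.ofModule
    (fun r x y => by
      induction x using Filter.Germ.inductionOn
      induction y using Filter.Germ.inductionOn
      rw [← Filter.Germ.coe_smul, ← Filter.Germ.coe_mul, ← Filter.Germ.coe_mul, ← Filter.Germ.coe_smul,
        smul_mul_assoc])
    (fun r x y => by
      induction x using Filter.Germ.inductionOn
      induction y using Filter.Germ.inductionOn
      rw [← Filter.Germ.coe_smul, ← Filter.Germ.coe_mul, ← Filter.Germ.coe_mul, ← Filter.Germ.coe_smul,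
        mul_smul_comm])

theorem Gm.algebraMap_eq (c : ℂ) : algebraMap ℂ (Gm w) c = ((fun _ => c : (Fin w → ℂ) → ℂ) : Gm w) := by
  rw [Algebra.algebraMap_eq_smul_one, ← Filter.Germ.coe_one, ← Filter.Germ.coe_smul]
  congr 1
  funext t
  simp

/-- the quotient of two forms -/
noncomputable def fr (g : (Fin w → ℂ) → PS n)
    (P Q : MvPolynomial ((ℕ × (Fin w → ℂ)) × Fin (n + 1)) ℂ) : Gm w :=
  ((fun t => ev g P t / ev g Q t : (Fin w → ℂ) → ℂ) : Gm w)

/-- forms of the same degrees, the second one not identically zero -/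
structure Pr (g : (Fin w → ℂ) → PS n) (P Q : MvPolynomial ((ℕ × (Fin w → ℂ)) × Fin (n + 1)) ℂ) : Prop where
  mh : ∃ β, MH β P ∧ MH β Q
  ne : ∃ t, ev g Q t ≠ 0

theorem Idt.ev_res (h : Idt g) {β : (ℕ × (Fin w → ℂ)) →₀ ℕ}
    {Q : MvPolynomial ((ℕ × (Fin w → ℂ)) × Fin (n + 1)) ℂ} (hQ : MH β Q) (h0 : ∃ t, ev g Q t ≠ 0) :
    ∀ᶠ t in residual (Fin w → ℂ), ev g Q t ≠ 0 := by
  rcases h.dich β Q hQ with h1 | ⟨h1, h2⟩
  · obtain ⟨t, ht⟩ := h0
    exact absurd (h1 t) ht
  · exact residual_of_dense_open h1 h2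

theorem Idt.mul_ne (h : Idt g) {β β' : (ℕ × (Fin w → ℂ)) →₀ ℕ}
    {Q Q' : MvPolynomial ((ℕ × (Fin w → ℂ)) × Fin (n + 1)) ℂ} (hQ : MH β Q) (h0 : ∃ t, ev g Q t ≠ 0)
    (hQ' : MH β' Q') (h0' : ∃ t, ev g Q' t ≠ 0) : ∃ t, ev g (Q * Q') t ≠ 0 := by
  obtain ⟨t, ht, ht'⟩ := ((h.ev_res hQ h0).and (h.ev_res hQ' h0')).exists
  exact ⟨t, by rw [ev_mul]; exact mul_ne_zero ht ht'⟩

theorem Idt.fr_congr (h : Idt g) {P Q P' Q' : MvPolynomial ((ℕ × (Fin w → ℂ)) × Fin (n + 1)) ℂ}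
    (hQ : Pr g P Q) (hQ' : Pr g P' Q') : fr g P Q = fr g P' Q' ↔
      ∀ t, ev g P t * ev g Q' t = ev g P' t * ev g Q t := by
  obtain ⟨⟨β, h1, h2⟩, h3⟩ := hQ
  obtain ⟨⟨β', h1', h2'⟩, h3'⟩ := hQ'
  have e1 := h.ev_res h2 h3
  have e2 := h.ev_res h2' h3'
  unfold fr
  rw [Filter.Germ.coe_eq]
  constructor
  · intro he
    have hmh : MH (β + β') (P * Q' + -(P' * Q)) :=
      (h1.mul h2').add (by rw [add_comm β β']; exact (h1'.mul h2).neg)
    rcases h.dich _ _ hmh with hd | ⟨-, hd⟩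
    · intro t
      have := hd t
      rw [ev_add, ev_neg, ev_mul, ev_mul] at this
      linear_combination this
    · exfalso
      have h4 : ∀ᶠ t in residual (Fin w → ℂ), ev g (P * Q' + -(P' * Q)) t = 0 := by
        filter_upwards [he, e1, e2] with t ht h1 h2
        rw [div_eq_div_iff h1 h2] at ht
        rw [ev_add, ev_neg, ev_mul, ev_mul]
        linear_combination ht
      have h5 := h.ev_res hmh hd.nonempty
      obtain ⟨t, h6, h7⟩ := (h4.and h5).exists
      exact h7 h6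
  · intro he
    filter_upwards [e1, e2] with t h1 h2
    rw [div_eq_div_iff h1 h2]
    exact he t

/-- the field of the quotients -/
noncomputable def Mer (h : Idt g) : Subalgebra ℂ (Gm w) where
  carrier := {f | ∃ P Q, Pr g P Q ∧ f = fr g P Q}
  mul_mem' := by
    rintro _ _ ⟨P, Q, ⟨⟨β, h1, h2⟩, h3⟩, rfl⟩ ⟨P', Q', ⟨⟨β', h1', h2'⟩, h3'⟩, rfl⟩
    refine ⟨P * P', Q * Q', ⟨⟨β + β', h1.mul h1', h2.mul h2'⟩, h.mul_ne h2 h3 h2' h3'⟩, ?_⟩
    unfold fr
    rw [← Filter.Germ.coe_mul, Filter.Germ.coe_eq]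
    refine Eventually.of_forall fun t => ?_
    simp only [Pi.mul_apply, ev_mul]
    rw [div_mul_div_comm]
  add_mem' := by
    rintro _ _ ⟨P, Q, ⟨⟨β, h1, h2⟩, h3⟩, rfl⟩ ⟨P', Q', ⟨⟨β', h1', h2'⟩, h3'⟩, rfl⟩
    refine ⟨P * Q' + Q * P', Q * Q', ⟨⟨β + β', (h1.mul h2').add (h2.mul h1'), h2.mul h2'⟩,
      h.mul_ne h2 h3 h2' h3'⟩, ?_⟩
    unfold fr
    rw [← Filter.Germ.coe_add, Filter.Germ.coe_eq]
    filter_upwards [h.ev_res h2 h3, h.ev_res h2' h3'] with t e1 e2
    simp only [Pi.add_apply, ev_add, ev_mul]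
    rw [div_add_div _ _ e1 e2]
  algebraMap_mem' := by
    intro c
    refine ⟨C c, C 1, ⟨⟨0, MH.C c, MH.C 1⟩, ⟨0, by rw [ev_C]; exact one_ne_zero⟩⟩, ?_⟩
    unfold fr
    simp only [ev_C, div_one]
    exact Gm.algebraMap_eq c

theorem Mer.isField (h : Idt g) : IsField (Mer h) where
  exists_pair_ne := ⟨0, 1, fun h => by
    have h1 : (0 : Gm w) = 1 := congrArg Subtype.val h
    exact zero_ne_one h1⟩
  mul_comm := mul_comm
  mul_inv_cancel := by
    rintro ⟨_, P, Q, ⟨⟨β, h1, h2⟩, h3⟩, rfl⟩ hne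
    have h4 : ∃ t, ev g P t ≠ 0 := by
      by_contra hcon
      push Not at hcon
      apply hne
      apply Subtype.ext
      change fr g P Q = 0
      unfold fr
      simp only [hcon, zero_div]
      rfl
    refine ⟨⟨fr g Q P, Q, P, ⟨⟨β, h2, h1⟩, h4⟩, rfl⟩, ?_⟩
    apply Subtype.ext
    change fr g P Q * fr g Q P = 1
    unfold fr
    rw [← Filter.Germ.coe_mul, ← Filter.Germ.coe_one, Filter.Germ.coe_eq]
    filter_upwards [h.ev_res h2 h3, h.ev_res h1 h4] with t e1 e2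
    simp only [Pi.mul_apply, Pi.one_apply]
    field_simp

noncomputable instance (h : Idt g) : Field (Mer h) := (Mer.isField h).toField

theorem Mer.exists_rep (h : Idt g) (f : Mer h) : ∃ P Q, Pr g P Q ∧ (f : Gm w) = fr g P Q := f.2

/-- the element given by a quotient -/
noncomputable def Mer.mk (h : Idt g) {P Q : MvPolynomial ((ℕ × (Fin w → ℂ)) × Fin (n + 1)) ℂ}
    (hP : Pr g P Q) : Mer h := ⟨fr g P Q, P, Q, hP, rfl⟩

/-- the composition with `t ↦ 2 ^ m t + a` -/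
noncomputable def Mer.sub (h : Idt g) (m : ℕ) (a : Fin w → ℂ) : Mer h →+* Mer h where
  toFun f := ⟨(f : Gm w).compTendsto (aff m a) (tendsto_residual _), by
    obtain ⟨P, Q, ⟨⟨β, h1, h2⟩, t, h3⟩, h4⟩ := f.2
    refine ⟨_, _, ⟨⟨_, h1.rename (shift_inj m a), h2.rename (shift_inj m a)⟩, ?_⟩, ?_⟩
    · refine ⟨(aff m a).symm t, ?_⟩
      rw [← ev_shift, ← aff_apply, Homeomorph.apply_symm_apply]
      exact h3
    · rw [h4]
      unfold fr
      rw [Filter.Germ.coe_compTendsto, Filter.Germ.coe_eq]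
      refine Eventually.of_forall fun t => ?_
      simp only [Function.comp_apply, aff_apply, ev_shift]⟩
  map_one' := rfl
  map_zero' := rfl
  map_mul' := by
    rintro ⟨x, hx⟩ ⟨y, hy⟩
    apply Subtype.ext
    induction x using Filter.Germ.inductionOn
    induction y using Filter.Germ.inductionOn
    rfl
  map_add' := by
    rintro ⟨x, hx⟩ ⟨y, hy⟩
    apply Subtype.ext
    induction x using Filter.Germ.inductionOn
    induction y using Filter.Germ.inductionOn
    rfl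

end fld

end Run7.h177.TA
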