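import Pool.Agent.Run7.h177.TA.Fa

/-!
Analytic representatives of the elements of the field at a point.
-/

set_option autoImplicit false

namespace Run7.h177.TA

open MvPolynomial Filter Topology
open Pool.Agent.TH182.TC (PS Holo)

variable {w n : ℕ}

/-- the filter of the residual sets near `t₀` -/
noncomputable abbrev nr (t₀ : Fin w → ℂ) : Filter (Fin w → ℂ) := 𝓝 t₀ ⊓ residual (Fin w → ℂ)

theorem nr_neBot (t₀ : Fin w → ℂ) : (nr t₀).NeBot := by
  rw [Filter.inf_neBot_iff]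
  intro s hs s' hs'
  have h1 := dense_of_mem_residual hs'
  obtain ⟨u, hu, ho, hm⟩ := mem_nhds_iff.1 hs
  obtain ⟨x, hx, hx'⟩ := h1.inter_open_nonempty u ho ⟨t₀, hm⟩
  exact ⟨x, hu hx, hx'⟩

/-- restriction to a neighbourhood of `t₀` -/
noncomputable def res (t₀ : Fin w → ℂ) : Gm w →+* Filter.Germ (nr t₀) ℂ where
  toFun f := f.compTendsto id (tendsto_id.mono_left inf_le_right)
  map_one' := rfl
  map_zero' := rfl
  map_mul' := by
    intro x y
    induction x using Filter.Germ.inductionOn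
    induction y using Filter.Germ.inductionOn
    rfl
  map_add' := by
    intro x y
    induction x using Filter.Germ.inductionOn
    induction y using Filter.Germ.inductionOn
    rfl

theorem res_coe (t₀ : Fin w → ℂ) (f : (Fin w → ℂ) → ℂ) :
    res t₀ (f : Gm w) = (f : Filter.Germ (nr t₀) ℂ) := rfl

/-- `F` is analytic at `t₀` and represents `f` near `t₀` -/
def Ag (f : Gm w) (t₀ : Fin w → ℂ) (F : (Fin w → ℂ) → ℂ) : Prop :=
  AnalyticAt ℂ F t₀ ∧ res t₀ f = (F : Filter.Germ (nr t₀) ℂ)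

variable {f f' : Gm w} {t₀ : Fin w → ℂ} {F F' : (Fin w → ℂ) → ℂ}

theorem Ag.add (h : Ag f t₀ F) (h' : Ag f' t₀ F') : Ag (f + f') t₀ (fun t => F t + F' t) :=
  ⟨h.1.add h'.1, by rw [map_add, h.2, h'.2]; rfl⟩

theorem Ag.mul (h : Ag f t₀ F) (h' : Ag f' t₀ F') : Ag (f * f') t₀ (fun t => F t * F' t) :=
  ⟨h.1.mul h'.1, by rw [map_mul, h.2, h'.2]; rfl⟩

theorem Ag.const (c : ℂ) : Ag (algebraMap ℂ (Gm w) c) t₀ (fun _ => c) :=
  ⟨analyticAt_const, by rw [Gm.algebraMap_eq]; rfl⟩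

theorem Ag.congr (h : Ag f t₀ F) (he : ∀ᶠ t in 𝓝 t₀, F' t = F t) : Ag f t₀ F' := by
  refine ⟨h.1.congr (he.mono fun t ht => ht.symm), h.2.trans ?_⟩
  rw [Filter.Germ.coe_eq]
  exact (he.mono fun t ht => ht.symm).filter_mono inf_le_left

/-- two representatives coincide near `t₀` -/
theorem Ag.eventually (h : Ag f t₀ F) (h' : Ag f t₀ F') : ∀ᶠ t in 𝓝 t₀, F t = F' t := by
  have h1 : ∀ᶠ t in nr t₀, F t = F' t := by
    rw [← EventuallyEq, ← Filter.Germ.coe_eq, ← h.2, ← h'.2]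
  obtain ⟨s, hs, s', hs', hss⟩ := Filter.mem_inf_iff.1 h1
  have h2 := dense_of_mem_residual hs'
  have h3 : ∀ᶠ t in 𝓝 t₀, AnalyticAt ℂ F t ∧ AnalyticAt ℂ F' t :=
    h.1.eventually_analyticAt.and h'.1.eventually_analyticAt
  obtain ⟨u, hu, ho, hm⟩ := mem_nhds_iff.1 (Filter.inter_mem h3 hs)
  refine mem_nhds_iff.2 ⟨u, fun t ht => ?_, ho, hm⟩
  by_contra hne
  have h4 : ∀ᶠ t' in 𝓝 t, F t' ≠ F' t' := by
    have hc : ContinuousAt (fun t' => F t' - F' t') t :=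
      ((hu ht).1.1.continuousAt).sub ((hu ht).1.2.continuousAt)
    filter_upwards [hc.eventually_ne (sub_ne_zero.2 hne)] with t' ht'
    exact sub_ne_zero.1 ht'
  obtain ⟨v, hv, hvo, hvm⟩ := mem_nhds_iff.1 (Filter.inter_mem h4 (ho.mem_nhds ht))
  obtain ⟨x, hx, hx'⟩ := h2.inter_open_nonempty v hvo ⟨t, hvm⟩
  have h5 : x ∈ {t | F t = F' t} := by
    have : x ∈ s ∩ s' := ⟨(hu (hv hx).2).2, hx'⟩
    rw [← hss] at this
    exact this
  exact (hv hx).1 h5

section poly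

variable {σ : Type}

theorem Ag.aeval {f : σ → Gm w} {F : σ → (Fin w → ℂ) → ℂ} (h : ∀ j, Ag (f j) t₀ (F j))
    (H : MvPolynomial σ ℂ) : Ag (MvPolynomial.aeval f H) t₀ (fun t => eval (fun j => F j t) H) := by
  induction H using MvPolynomial.induction_on with
  | C c =>
    simp only [MvPolynomial.aeval_C, eval_C]
    exact Ag.const c
  | add p q hp hq =>
    simp only [map_add]
    exact hp.add hq
  | mul_X p j hp =>
    simp only [map_mul, MvPolynomial.aeval_X, eval_X]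
    exact hp.mul (h j)

end poly

section fld

variable {g : (Fin w → ℂ) → PS n} (h : Idt g)

include h in
theorem ag_fr {P Q : MvPolynomial ((ℕ × (Fin w → ℂ)) × Fin (n + 1)) ℂ} (hP : Pr g P Q)
    (h0 : ev g Q t₀ ≠ 0) : Ag (fr g P Q) t₀ (fun t => ev g P t / ev g Q t) := by
  obtain ⟨⟨β, h1, h2⟩, -⟩ := hP
  exact ⟨h.an β P Q h1 h2 t₀ h0, rfl⟩

/-- an element of the field which vanishes near a point is zero -/
theorem Mer.eq_zero (f : Mer h) (hf : Ag (f : Gm w) t₀ F) (h0 : ∀ᶠ t in 𝓝 t₀, F t = 0) : f = 0 := by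
  obtain ⟨P, Q, hPQ, hf'⟩ := f.2
  obtain ⟨β, h1, h2⟩ := hPQ.mh
  have h3 := h.ev_res h2 hPQ.ne
  have h4 : ∀ᶠ t in nr t₀, ev g P t / ev g Q t = 0 := by
    have h5 : (((fun t => ev g P t / ev g Q t : (Fin w → ℂ) → ℂ)) : Filter.Germ (nr t₀) ℂ) =
        ((fun _ => 0 : (Fin w → ℂ) → ℂ) : Filter.Germ (nr t₀) ℂ) := by
      have h6 : res t₀ (fr g P Q) = (F : Filter.Germ (nr t₀) ℂ) := by rw [← hf']; exact hf.2
      rw [fr, res_coe] at h6
      rw [h6, Filter.Germ.coe_eq]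
      exact h0.filter_mono inf_le_left
    rw [Filter.Germ.coe_eq] at h5
    exact h5
  have h5 : ∀ t, ev g P t = 0 := by
    rcases h.dich β P h1 with hd | ⟨hd1, hd2⟩
    · exact hd
    · exfalso
      have h6' : ∀ᶠ t in residual (Fin w → ℂ), ev g P t ≠ 0 := residual_of_dense_open hd1 hd2
      have h6 : ∀ᶠ t in nr t₀, ev g P t ≠ 0 := h6'.filter_mono inf_le_right
      have h7 : ∀ᶠ t in nr t₀, ev g Q t ≠ 0 := h3.filter_mono inf_le_right
      have := nr_neBot t₀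
      obtain ⟨t, ha, hb, hc⟩ := (h4.and (h6.and h7)).exists
      exact (div_ne_zero hb hc) ha
  apply Subtype.ext
  rw [hf']
  change fr g P Q = 0
  unfold fr
  simp only [h5, zero_div]
  rfl

theorem Mer.exists_ag (f : Mer h) : ∃ F : (Fin w → ℂ) → ℂ,
    (∀ᶠ t in residual (Fin w → ℂ), Ag (f : Gm w) t F) ∧
    (f ≠ 0 → ∀ᶠ t in residual (Fin w → ℂ), F t ≠ 0) := by
  obtain ⟨P, Q, hPQ, hf'⟩ := f.2
  obtain ⟨β, h1, h2⟩ := hPQ.mh
  have h3 := h.ev_res h2 hPQ.ne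
  refine ⟨fun t => ev g P t / ev g Q t, ?_, fun hne => ?_⟩
  · filter_upwards [h3] with t ht
    rw [hf']
    exact ag_fr h hPQ ht
  · have h4 : ∃ t, ev g P t ≠ 0 := by
      by_contra hcon
      push Not at hcon
      apply hne
      apply Subtype.ext
      rw [hf']
      change fr g P Q = 0
      unfold fr
      simp only [hcon, zero_div]
      rfl
    filter_upwards [h3, h.ev_res h1 h4] with t ha hb
    exact div_ne_zero hb ha

theorem aff_fix (t₀ : Fin w → ℂ) : aff 1 (-t₀) t₀ = t₀ := by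
  rw [aff_apply, pow_one, two_smul]
  abel

theorem Mer.ag_sub {f : Mer h} (hf : Ag (f : Gm w) t₀ F) :
    Ag (Mer.sub h 1 (-t₀) f : Gm w) t₀ (fun t => F ((2 : ℂ) • t + -t₀)) := by
  have e1 : (fun t : Fin w → ℂ => F ((2 : ℂ) • t + -t₀)) = F ∘ (aff 1 (-t₀)) := by
    funext t
    rw [Function.comp_apply, aff_apply, pow_one]
  have ht : Tendsto (aff 1 (-t₀)) (nr t₀) (nr t₀) := by
    refine Filter.Tendsto.inf ?_ (tendsto_residual _)
    have := (aff 1 (-t₀)).continuous.tendsto t₀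
    rwa [aff_fix] at this
  refine ⟨?_, ?_⟩
  · rw [e1]
    have h1 : AnalyticAt ℂ F (aff 1 (-t₀) t₀) := by rw [aff_fix]; exact hf.1
    refine h1.comp ?_
    have e2 : (aff 1 (-t₀) : (Fin w → ℂ) → (Fin w → ℂ)) = fun t => (2 : ℂ) ^ 1 • t + -t₀ := rfl
    rw [e2]
    fun_prop
  · rw [e1]
    obtain ⟨x, hx⟩ := f
    induction x using Filter.Germ.inductionOn with
    | _ x =>
      have h2 : (x : Filter.Germ (nr t₀) ℂ) = (F : Filter.Germ (nr t₀) ℂ) := hf.2
      have h3 : ((x ∘ (aff 1 (-t₀))) : Filter.Germ (nr t₀) ℂ) =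
          ((F ∘ (aff 1 (-t₀))) : Filter.Germ (nr t₀) ℂ) := by
        rw [Filter.Germ.coe_eq] at h2 ⊢
        exact ht.eventually h2
      exact h3

end fld

end Run7.h177.TA
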