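import Pool.Agent.Run7.h177.TA.Fb

/-!
The data of the self-map `t ↦ 2 t - t₀` near `t₀`.
-/

set_option autoImplicit false

namespace Run7.h177.TA

open MvPolynomial Filter Topology
open Pool.Agent.TH182.TC (PS Holo)
open Pool.Agent.W602.GT (IsForm)

variable {w n : ℕ} {g : (Fin w → ℂ) → PS n}

/-- generators `U j` of the field with representatives `V j` which vanish at `t₀` -/
structure Cht (h : Idt g) (t₀ : Fin w → ℂ) (U : Option (Fin w) → Mer h)
    (V : Option (Fin w) → (Fin w → ℂ) → ℂ) (M : Pl ℂ w) : Prop where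
  ag : ∀ j, Ag (U j : Gm w) t₀ (V j)
  v0 : ∀ j, V j t₀ = 0
  ker : ∀ H : Pl ℂ w, aeval U H = 0 ↔ M ∣ H
  gen : ∀ f : Mer h, ∃ p q : Pl ℂ w, aeval U q ≠ 0 ∧ aeval U q * f = aeval U p
  jac : ∀ v, (∀ i, fderiv ℂ (V (some i)) t₀ v = 0) → v = 0
  dm : lc none M ≠ 0

namespace Cht

variable {h : Idt g} {t₀ : Fin w → ℂ} {U : Option (Fin w) → Mer h}
  {V : Option (Fin w) → (Fin w → ℂ) → ℂ} {M : Pl ℂ w} (c : Cht h t₀ U V M)

include c

theorem ag_aeval (H : Pl ℂ w) :
    Ag ((aeval U H : Mer h) : Gm w) t₀ (fun t => eval (fun j => V j t) H) := by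
  have h1 : ((aeval U H : Mer h) : Gm w) = aeval (fun j => (U j : Gm w)) H := by
    have h2 : (Mer h).val (aeval U H) = aeval (fun j => (Mer h).val (U j)) H := by
      rw [← AlgHom.comp_apply, comp_aeval]
    exact h2
  rw [h1]
  exact Ag.aeval c.ag H

theorem eval_t0 (H : Pl ℂ w) : eval (fun j => V j t₀) H = constantCoeff H := by
  simp only [c.v0]
  have h1 : (fun _ : Option (Fin w) => (0 : ℂ)) = 0 := rfl
  rw [h1, eval_zero]

/-- regularity -/
theorem reg (hK : S_KRU) {f : Mer h} {F : (Fin w → ℂ) → ℂ} (hf : Ag (f : Gm w) t₀ F) :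
    ∃ r a : Pl ℂ w, constantCoeff r = 1 ∧ aeval U r * f = aeval U a := by
  obtain ⟨p, q, hq, hpq⟩ := c.gen f
  have hm : Tendsto (fun t : Fin w → ℂ => t + t₀) (𝓝 0) (𝓝 t₀) := by
    have : Tendsto (fun t : Fin w → ℂ => t + t₀) (𝓝 0) (𝓝 (0 + t₀)) :=
      (continuous_id.add continuous_const).tendsto 0
    rwa [zero_add] at this
  have han : ∀ {G : (Fin w → ℂ) → ℂ}, AnalyticAt ℂ G t₀ → AnalyticAt ℂ (fun t => G (t + t₀)) 0 := by
    intro G hG
    have h1 : AnalyticAt ℂ G ((fun t : Fin w → ℂ => t + t₀) 0) := by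
      simpa using hG
    have h2 : AnalyticAt ℂ (fun t : Fin w → ℂ => t + t₀) 0 := by fun_prop
    exact AnalyticAt.comp h1 h2
  have hee : ∀ t : Fin w → ℂ, (fun o : Option (Fin w) => o.elim (V none (t + t₀))
      fun i => V (some i) (t + t₀)) = fun j => V j (t + t₀) := by
    intro t
    funext o
    cases o <;> rfl
  have hp1 : ∀ᶠ t in 𝓝 t₀, eval (fun j => V j t) q * F t = eval (fun j => V j t) p := by
    have h1 := (c.ag_aeval q).mul hf
    have h2 := c.ag_aeval p
    have h3 : ((aeval U q : Mer h) : Gm w) * (f : Gm w) = ((aeval U p : Mer h) : Gm w) := by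
      rw [← hpq]
      rfl
    rw [h3] at h1
    exact h1.eventually h2
  have hM1 : ∀ᶠ t in 𝓝 t₀, eval (fun j => V j t) M = 0 := by
    have h1 := c.ag_aeval M
    have h2 : (aeval U M : Mer h) = 0 := (c.ker M).2 dvd_rfl
    rw [h2] at h1
    have h3 : Ag ((0 : Mer h) : Gm w) t₀ (fun _ => (0 : ℂ)) := by
      have := Ag.const (w := w) (t₀ := t₀) 0
      rwa [map_zero] at this
    exact h1.eventually h3
  obtain ⟨r, a, s, hr, hra⟩ := hK w (fun i t => V (some i) (t + t₀)) (fun t => V none (t + t₀))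
    (fun t => F (t + t₀)) M p q (fun i => han (c.ag _).1) (han (c.ag _).1) (han hf.1)
    (fun i => by simp only [zero_add]; exact c.v0 _) (by simp only [zero_add]; exact c.v0 _)
    (fun v hv => c.jac v fun i => by
      have h1 := hv i
      have h2 : fderiv ℂ (fun t : Fin w → ℂ => V (some i) (t + t₀)) 0 = fderiv ℂ (V (some i)) t₀ := by
        rw [fderiv_comp_add_right, zero_add]
      rwa [h2] at h1) c.dm
    (by
      filter_upwards [hm.eventually hM1] with t ht
      rw [hee]
      exact ht)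
    (by
      filter_upwards [hm.eventually hp1] with t ht
      rw [hee]
      exact ht)
  refine ⟨r, a, hr, ?_⟩
  have h1 := congrArg (aeval U) hra
  rw [map_mul, map_add, map_mul, map_mul, (c.ker M).2 dvd_rfl, zero_mul, add_zero, ← hpq] at h1
  refine mul_left_cancel₀ hq ?_
  linear_combination h1

/-- a common denominator -/
theorem common (hK : S_KRU) {τ : Type} [Fintype τ] [DecidableEq τ] (f : τ → Mer h)
    (hf : ∀ x, ∃ F, Ag (f x : Gm w) t₀ F) :
    ∃ (b : Pl ℂ w) (a : τ → Pl ℂ w), constantCoeff b = 1 ∧ ∀ x, aeval U (a x) = aeval U b * f x := by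
  choose F hF using hf
  choose r a hr hra using fun x => c.reg hK (hF x)
  refine ⟨∏ x, r x, fun x => (∏ y ∈ Finset.univ.erase x, r y) * a x, ?_, fun x => ?_⟩
  · rw [map_prod]
    exact Finset.prod_eq_one fun x _ => hr x
  · rw [← Finset.mul_prod_erase _ _ (Finset.mem_univ x)]
    rw [map_mul, map_mul, ← hra]
    ring

/-- the first-order part -/
theorem hasFDerivAt_eval (H : Pl ℂ w) : HasFDerivAt (fun t => eval (fun j => V j t) H)
    (∑ j, lc j H • fderiv ℂ (V j) t₀) t₀ := by
  classical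
  have hV : ∀ j, HasFDerivAt (V j) (fderiv ℂ (V j) t₀) t₀ := fun j =>
    (c.ag j).1.differentiableAt.hasFDerivAt
  induction H using MvPolynomial.induction_on with
  | C x =>
    simp only [eval_C]
    have h1 : ∑ j, lc j (C x : Pl ℂ w) • fderiv ℂ (V j) t₀ = 0 := by
      refine Finset.sum_eq_zero fun j _ => ?_
      unfold lc
      rw [coeff_C, if_neg]
      · ext v
        simp
      intro h0
      have := DFunLike.congr_fun h0 j
      simp at this
    rw [h1]
    exact hasFDerivAt_const _ _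
  | add p q hp hq =>
    simp only [map_add]
    have h1 : ∑ j, lc j (p + q) • fderiv ℂ (V j) t₀ = (∑ j, lc j p • fderiv ℂ (V j) t₀) +
        ∑ j, lc j q • fderiv ℂ (V j) t₀ := by
      rw [← Finset.sum_add_distrib]
      refine Finset.sum_congr rfl fun j _ => ?_
      unfold lc
      rw [coeff_add]
      ext v
      simp [add_mul]
    rw [h1]
    exact hp.add hq
  | mul_X p i hp =>
    simp only [map_mul, eval_X]
    have h1 := hp.mul (hV i)
    refine h1.congr_fderiv ?_
    rw [c.eval_t0, c.v0]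
    have h3 : (0 : ℂ) • (∑ j, lc j p • fderiv ℂ (V j) t₀) = 0 := by
      ext v
      simp
    rw [h3, add_zero]
    rw [Finset.sum_eq_single i]
    · unfold lc
      rw [coeff_mul_X', if_pos (by simp)]
      congr 1
      rw [constantCoeff_eq]
      congr 1
      ext k
      simp
    · intro j _ hji
      unfold lc
      rw [coeff_mul_X', if_neg]
      · ext v
        simp
      rw [Finsupp.mem_support_iff, Finsupp.single_apply, if_neg hji]
      simp
    · intro h0
      exact absurd (Finset.mem_univ _) h0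

end Cht

end Run7.h177.TA
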