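import Pool.Agent.Run7.h177.TA.Fc

/-!
The algebraic data of the self-map `t ↦ 2 t - t₀`.
-/

set_option autoImplicit false

namespace Run7.h177.TA

open MvPolynomial Filter Topology
open Pool.Agent.TH182.TC (PS Holo eval_smul_of_homog)
open Pool.Agent.W602.GT (IsForm)

variable {w n : ℕ} {g : (Fin w → ℂ) → PS n}

/-- the quotients of the coordinates -/
theorem pr_X {t₀ : Fin w → ℂ} {l0 : Fin (n + 1)} (h0 : (g t₀).rep l0 ≠ 0) (l : Fin (n + 1)) :
    Pr g (X ((0, 0), l)) (X ((0, 0), l0)) :=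
  ⟨⟨_, MH.X _ l, MH.X _ l0⟩, t₀, by
    unfold ev
    rw [eval_X, mp_zero]
    exact h0⟩

noncomputable def yc (h : Idt g) {t₀ : Fin w → ℂ} {l0 : Fin (n + 1)} (h0 : (g t₀).rep l0 ≠ 0)
    (l : Fin (n + 1)) : Mer h := Mer.mk h (pr_X h0 l)

theorem ag_yc (h : Idt g) {t₀ : Fin w → ℂ} {l0 : Fin (n + 1)} (h0 : (g t₀).rep l0 ≠ 0)
    (l : Fin (n + 1)) {t₁ : Fin w → ℂ} (h1 : (g t₁).rep l0 ≠ 0) :
    Ag (yc h h0 l : Gm w) t₁ (fun t => (g t).rep l / (g t).rep l0) := by
  have h2 := ag_fr h (pr_X h0 l) (t₀ := t₁) (by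
    unfold ev
    rw [eval_X, mp_zero]
    exact h1)
  have h3 : (fun t => ev g (X ((0, 0), l)) t / ev g (X ((0, 0), l0)) t) =
      fun t => (g t).rep l / (g t).rep l0 := by
    funext t
    unfold ev
    rw [eval_X, eval_X, mp_zero]
  rw [h3] at h2
  exact h2

/-- a form at the quotients -/
theorem eval_div {F : MvPolynomial (Fin (n + 1)) ℂ} {d : ℕ} (hF : F.IsHomogeneous d)
    (x : Fin (n + 1) → ℂ) (c : ℂ) (l0 : Fin (n + 1)) :
    eval (fun l => c * (x l / x l0)) F = (c / x l0) ^ d * eval x F := by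
  rw [← eval_smul_of_homog hF]
  congr 2
  funext l
  simp only [Pi.smul_apply, smul_eq_mul]
  ring

theorem Mer.sub_algebraMap (h : Idt g) (m : ℕ) (a : Fin w → ℂ) (c : ℂ) :
    Mer.sub h m a (algebraMap ℂ (Mer h) c) = algebraMap ℂ (Mer h) c := by
  apply Subtype.ext
  change ((algebraMap ℂ (Gm w) c)).compTendsto (aff m a) (tendsto_residual _) = algebraMap ℂ (Gm w) c
  rw [Gm.algebraMap_eq]
  rfl

/-- linear algebra: `w` linear forms on `ℂ ^ w` without a common zero -/
theorem exists_dual {L : Fin w → ((Fin w → ℂ) →L[ℂ] ℂ)} (hL : ∀ v, (∀ i, L i v = 0) → v = 0)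
    (j : Fin w) : ∃ v, ∀ i, L i v = if i = j then 1 else 0 := by
  let T : (Fin w → ℂ) →ₗ[ℂ] (Fin w → ℂ) := LinearMap.pi fun i => (L i : (Fin w → ℂ) →ₗ[ℂ] ℂ)
  have hT : Function.Injective T := by
    rw [injective_iff_map_eq_zero]
    intro v hv
    exact hL v fun i => congrFun hv i
  obtain ⟨v, hv⟩ := (LinearMap.injective_iff_surjective.1 hT) (fun i => if i = j then 1 else 0)
  exact ⟨v, fun i => congrFun hv i⟩

theorem aeval_hom {K : Type} [Field K] [Algebra ℂ K] (φ : K →+* K)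
    (hφ : ∀ c : ℂ, φ (algebraMap ℂ K c) = algebraMap ℂ K c) (U : Option (Fin w) → K)
    (e : ℕ) (a : Option (Fin w) → Pl ℂ w) (b M : Pl ℂ w) (he : ∀ m ∈ M.support, m.degree ≤ e)
    (hab : ∀ j, aeval U (a j) = aeval U b * φ (U j)) :
    aeval U (hom e a b M) = (aeval U b) ^ e * φ (aeval U M) := by
  unfold hom
  have h1 : φ (aeval U M) = ∑ m ∈ M.support, algebraMap ℂ K (coeff m M) * ∏ j, φ (U j) ^ m j := by
    rw [aeval_def, eval₂_eq', map_sum]
    refine Finset.sum_congr rfl fun m _ => ?_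
    rw [map_mul, hφ, map_prod]
    congr 1
    exact Finset.prod_congr rfl fun j _ => map_pow _ _ _
  rw [h1, map_sum, Finset.mul_sum]
  refine Finset.sum_congr rfl fun m hm => ?_
  have hd : (∑ j, m j) = m.degree := by
    rw [Finsupp.degree_eq_sum]
  have hme := he m hm
  rw [map_mul, map_mul, map_prod, map_pow, aeval_C]
  have h2 : ∏ j, aeval U (a j ^ m j) = (aeval U b) ^ m.degree * ∏ j, φ (U j) ^ m j := by
    rw [← hd, ← Finset.prod_pow_eq_pow_sum, ← Finset.prod_mul_distrib]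
    refine Finset.prod_congr rfl fun j _ => ?_
    rw [map_pow, hab, mul_pow]
  rw [h2]
  calc algebraMap ℂ K (coeff m M) * ((aeval U b) ^ m.degree * ∏ j, φ (U j) ^ m j) *
        (aeval U b) ^ (e - m.degree) = algebraMap ℂ K (coeff m M) * (∏ j, φ (U j) ^ m j) *
          ((aeval U b) ^ m.degree * (aeval U b) ^ (e - m.degree)) := by ring
    _ = (aeval U b) ^ e * (algebraMap ℂ K (coeff m M) * ∏ j, φ (U j) ^ m j) := by
      rw [← pow_add, Nat.add_sub_cancel' hme]
      ring

namespace Cht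

variable {h : Idt g} {t₀ : Fin w → ℂ} {U : Option (Fin w) → Mer h}
  {V : Option (Fin w) → (Fin w → ℂ) → ℂ} {M : Pl ℂ w} (c : Cht h t₀ U V M)

include c

/-- the value at `t₀` -/
theorem val_eq {H : Pl ℂ w} {G : (Fin w → ℂ) → ℂ} (hG : Ag ((aeval U H : Mer h) : Gm w) t₀ G) :
    constantCoeff H = G t₀ := by
  rw [← c.eval_t0]
  exact ((c.ag_aeval H).eventually hG).self_of_nhds

/-- the derivative at `t₀` -/
theorem der_eq {H : Pl ℂ w} {G : (Fin w → ℂ) → ℂ} (hG : Ag ((aeval U H : Mer h) : Gm w) t₀ G)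
    {L : (Fin w → ℂ) →L[ℂ] ℂ} (hL : HasFDerivAt G L t₀) :
    ∑ j, lc j H • fderiv ℂ (V j) t₀ = L := by
  have h1 := c.hasFDerivAt_eval H
  have h2 : (fun t => eval (fun j => V j t) H) =ᶠ[𝓝 t₀] G := (c.ag_aeval H).eventually hG
  exact h1.unique (hL.congr_of_eventuallyEq h2)

theorem M0 : constantCoeff M = 0 := by
  have h1 : Ag ((aeval U M : Mer h) : Gm w) t₀ (fun _ => (0 : ℂ)) := by
    rw [(c.ker M).2 dvd_rfl]
    have := Ag.const (w := w) (t₀ := t₀) 0
    rwa [map_zero] at this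
  exact c.val_eq h1

theorem dM : ∑ j, lc j M • fderiv ℂ (V j) t₀ = 0 := by
  have h1 : Ag ((aeval U M : Mer h) : Gm w) t₀ (fun _ => (0 : ℂ)) := by
    rw [(c.ker M).2 dvd_rfl]
    have := Ag.const (w := w) (t₀ := t₀) 0
    rwa [map_zero] at this
  exact c.der_eq h1 (hasFDerivAt_const _ _)

/-- the main construction -/
theorem dyn (hK : S_KRU) {l0 : Fin (n + 1)} {l : Fin w → Fin (n + 1)} {κ : Fin w → ℂ}
    (h0 : (g t₀).rep l0 ≠ 0)
    (hU : ∀ i, U (some i) = yc h h0 (l i) - algebraMap ℂ (Mer h) (κ i))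
    {ι : Type} (F : ι → MvPolynomial (Fin (n + 1)) ℂ) (hF : ∀ i, IsForm (F i))
    (hFg : ∀ i t, eval (g t).rep (F i) = 0) {Q : MvPolynomial (Fin (n + 1)) ℂ} (hQ : IsForm Q)
    (hQ0 : eval (g t₀).rep Q ≠ 0) : ∃ D : Dyn ℂ w n, Good F Q D := by
  classical
  -- the elements
  let f : Option (Fin w) ⊕ Fin (n + 1) → Mer h :=
    Sum.elim (fun j => Mer.sub h 1 (-t₀) (U j)) (fun l' => yc h h0 l')
  obtain ⟨b, a, hb, hab⟩ := c.common hK f (by
    rintro (j | l')
    · exact ⟨_, Mer.ag_sub h (c.ag j)⟩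
    · exact ⟨_, ag_yc h h0 l' h0⟩)
  have hd := exists_dual (L := fun i => fderiv ℂ (V (some i)) t₀) c.jac
  have hne : ∀ i i', i ≠ i' → l i ≠ l i' := by
    intro i i' hii hl
    have h1 : U (some i) = U (some i') + algebraMap ℂ (Mer h) (κ i' - κ i) := by
      rw [hU, hU, hl, map_sub]
      ring
    have h2 : Ag ((U (some i) : Mer h) : Gm w) t₀ (fun t => V (some i') t + (κ i' - κ i)) := by
      rw [h1]
      exact (c.ag (some i')).add (Ag.const _)
    have h3 := (c.ag (some i)).eventually h2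
    obtain ⟨v, hv⟩ := hd i
    have h4 : fderiv ℂ (V (some i)) t₀ = fderiv ℂ (V (some i')) t₀ := by
      have h5 : V (some i) =ᶠ[𝓝 t₀] fun t => V (some i') t + (κ i' - κ i) := h3
      rw [h5.fderiv_eq, fderiv_add_const]
    have h5 := hv i
    have h6 := hv i'
    rw [if_pos rfl] at h5
    rw [if_neg (Ne.symm hii)] at h6
    rw [h4, h6] at h5
    exact zero_ne_one h5
  have hne0 : ∀ i, l i ≠ l0 := by
    intro i hl
    have h2 : Ag ((U (some i) : Mer h) : Gm w) t₀ (fun _ => 1 - κ i) := by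
      have h3 : U (some i) = algebraMap ℂ (Mer h) (1 - κ i) := by
        rw [hU, hl, map_sub, map_one]
        congr 1
        apply Subtype.ext
        change fr g _ _ = 1
        unfold fr
        rw [← Filter.Germ.coe_one, Filter.Germ.coe_eq]
        filter_upwards [h.ev_res (MH.X (0, 0) l0) (pr_X h0 l0).ne] with t ht
        rw [div_self ht]
        rfl
      rw [h3]
      exact Ag.const _
    have h3 : V (some i) =ᶠ[𝓝 t₀] fun _ => 1 - κ i := (c.ag (some i)).eventually h2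
    obtain ⟨v, hv⟩ := hd i
    have h5 := hv i
    rw [if_pos rfl, h3.fderiv_eq] at h5
    simp at h5
  -- the coordinates
  let cc : Fin (n + 1) → Pl ℂ w := fun l' => if l' = l0 then b else
    if h : ∃ i, l i = l' then b * (X (some h.choose) + C (κ h.choose)) else a (Sum.inr l')
  have hcl : ∀ i, cc (l i) = b * (X (some i) + C (κ i)) := by
    intro i
    have hex : ∃ i', l i' = l i := ⟨i, rfl⟩
    have h1 : hex.choose = i := by
      by_contra hne'
      exact hne _ _ hne' hex.choose_spec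
    simp only [cc]
    rw [if_neg (hne0 i), dif_pos hex, h1]
  have hc0 : cc l0 = b := if_pos rfl
  have hy0 : yc h h0 l0 = 1 := by
    apply Subtype.ext
    change fr g _ _ = 1
    unfold fr
    rw [← Filter.Germ.coe_one, Filter.Germ.coe_eq]
    filter_upwards [h.ev_res (MH.X (0, 0) l0) (pr_X h0 l0).ne] with t ht
    rw [div_self ht]
    rfl
  have hcy : ∀ l', aeval U (cc l') = aeval U b * yc h h0 l' := by
    intro l'
    by_cases h1 : l' = l0
    · rw [h1, hc0, hy0, mul_one]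
    · by_cases h2 : ∃ i, l i = l'
      · obtain ⟨i, rfl⟩ := h2
        rw [hcl, map_mul, map_add, aeval_X, aeval_C, hU, sub_add_cancel]
      · simp only [cc]
        rw [if_neg h1, dif_neg h2]
        exact hab (Sum.inr l')
  have hcA : ∀ l', Ag ((aeval U (cc l') : Mer h) : Gm w) t₀
      (fun t => eval (fun j => V j t) b * ((g t).rep l' / (g t).rep l0)) := by
    intro l'
    rw [hcy]
    exact (c.ag_aeval b).mul (ag_yc h h0 l' h0)
  have hv0 : ∀ l', constantCoeff (cc l') = (g t₀).rep l' / (g t₀).rep l0 := by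
    intro l'
    rw [c.val_eq (hcA l'), c.eval_t0, hb, one_mul]
  -- the self-map
  have haA : ∀ j, Ag ((aeval U (a (Sum.inl j)) : Mer h) : Gm w) t₀
      (fun t => eval (fun j => V j t) b * V j ((2 : ℂ) • t + -t₀)) := by
    intro j
    rw [hab (Sum.inl j)]
    exact (c.ag_aeval b).mul (Mer.ag_sub h (c.ag j))
  have hfix : (2 : ℂ) • t₀ + -t₀ = t₀ := by
    rw [two_smul]
    abel
  refine ⟨⟨M, fun j => a (Sum.inl j), b, cc, l0, l, κ⟩, ⟨c.M0, c.dm.isUnit, hb, fun j => ?_,
    fun i j => ?_, ?_, fun i => ?_, ?_, fun i => ?_, ?_⟩⟩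
  · -- a0
    rw [c.val_eq (haA j), hfix, c.v0, mul_zero]
  · -- lin
    have h1 : HasFDerivAt (fun t => eval (fun j => V j t) b * V (some i) ((2 : ℂ) • t + -t₀))
        ((2 : ℂ) • fderiv ℂ (V (some i)) t₀) t₀ := by
      have h2 : HasFDerivAt (fun t : Fin w → ℂ => (2 : ℂ) • t + -t₀)
          ((2 : ℂ) • ContinuousLinearMap.id ℂ (Fin w → ℂ)) t₀ :=
        ((hasFDerivAt_id t₀).const_smul (2 : ℂ)).add_const _
      have h3 : HasFDerivAt (V (some i)) (fderiv ℂ (V (some i)) t₀) ((2 : ℂ) • t₀ + -t₀) := by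
        rw [hfix]
        exact (c.ag (some i)).1.differentiableAt.hasFDerivAt
      have h4 := (c.hasFDerivAt_eval b).mul (h3.comp t₀ h2)
      refine h4.congr_fderiv ?_
      ext v
      simp [hfix, c.v0, hb]
    have h2 := c.der_eq (haA (some i)) h1
    have h3 := c.dM
    obtain ⟨v, hv⟩ := hd j
    have hsum : ∀ H : Pl ℂ w, (∑ j, lc j H • fderiv ℂ (V j) t₀) v =
        lc none H * fderiv ℂ (V none) t₀ v + lc (some j) H := by
      intro H
      rw [sum_apply, Fintype.sum_option]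
      congr 1
      rw [Finset.sum_eq_single j]
      · rw [smul_apply, smul_eq_mul, hv, if_pos rfl, mul_one]
      · intro j' _ hj'
        rw [smul_apply, smul_eq_mul, hv, if_neg hj', mul_zero]
      · intro h'
        exact absurd (Finset.mem_univ _) h'
    have h4 := congrArg (fun L : (Fin w → ℂ) →L[ℂ] ℂ => L v) h2
    have h5 := congrArg (fun L : (Fin w → ℂ) →L[ℂ] ℂ => L v) h3
    simp only [hsum, smul_apply, smul_eq_mul, zero_apply, hv] at h4 h5
    change lc (some j) (a (Sum.inl (some i))) * lc none M -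
      lc none (a (Sum.inl (some i))) * lc (some j) M = _
    split_ifs with hij
    · rw [if_pos hij] at h4
      linear_combination (lc none M) * h4 - (lc none (a (Sum.inl (some i)))) * h5
    · rw [if_neg hij] at h4
      linear_combination (lc none M) * h4 - (lc none (a (Sum.inl (some i)))) * h5
  · -- inv
    refine ⟨M.support.sup fun m => m.degree, fun m hm => Finset.le_sup (f := fun m => m.degree) hm, ?_⟩
    rw [← c.ker, aeval_hom (Mer.sub h 1 (-t₀)) (Mer.sub_algebraMap h 1 (-t₀)) U _ _ _ _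
      (fun m hm => Finset.le_sup (f := fun m => m.degree) hm) fun j => hab (Sum.inl j),
      (c.ker M).2 dvd_rfl, map_zero, mul_zero]
  · -- eqn
    rw [← c.ker]
    obtain ⟨d, hFd⟩ := hF i
    have h1 := c.ag_aeval (aeval cc (F i))
    refine Mer.eq_zero h _ h1 ?_
    have h2 : ∀ᶠ t in 𝓝 t₀, ∀ l', eval (fun j => V j t) (cc l') =
        eval (fun j => V j t) b * ((g t).rep l' / (g t).rep l0) := by
      rw [Filter.eventually_all]
      intro l'
      exact (c.ag_aeval (cc l')).eventually (hcA l')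
    filter_upwards [h2] with t ht
    have h3 : eval (fun j => V j t) (aeval cc (F i)) =
        eval (fun l' => eval (fun j => V j t) (cc l')) (F i) := by
      have e1 := congrArg (fun φ : MvPolynomial (Fin (n + 1)) ℂ →ₐ[ℂ] ℂ => φ (F i))
        (comp_aeval cc (aeval (fun j => V j t) : Pl ℂ w →ₐ[ℂ] ℂ))
      exact e1
    rw [h3]
    simp only [ht]
    rw [eval_div hFd, hFg, mul_zero]
  · -- c0
    change IsUnit (constantCoeff (cc l0))
    rw [hc0, hb]
    exact isUnit_one
  · -- cl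
    change cc (l i) = cc l0 * _
    rw [hcl, hc0]
  · -- q0
    change IsUnit (constantCoeff (aeval cc Q))
    obtain ⟨d, hQd⟩ := hQ
    have h3 : constantCoeff (aeval cc Q) = eval (fun l' => constantCoeff (cc l')) Q := by
      have e1 : ∀ H : Pl ℂ w, constantCoeff H = aeval (0 : Option (Fin w) → ℂ) H := fun H => by
        rw [← eval_zero]
        rfl
      have e2 := congrArg (fun φ : MvPolynomial (Fin (n + 1)) ℂ →ₐ[ℂ] ℂ => φ Q)
        (comp_aeval cc (aeval (0 : Option (Fin w) → ℂ) : Pl ℂ w →ₐ[ℂ] ℂ))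
      simp only [e1]
      exact e2
    rw [h3]
    simp only [hv0]
    have h4 := eval_div hQd (g t₀).rep 1 l0
    simp only [one_mul] at h4
    rw [h4]
    exact (mul_ne_zero (pow_ne_zero _ (div_ne_zero one_ne_zero h0)) hQ0).isUnit

end Cht

end Run7.h177.TA
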