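import Pool.Agent.Run7.h177.TA.Iface
import Pool.Agent.Run7.h418.TorDefs

/-!
Project TA: further pieces (pure algebra, choice of coordinates, independence)
-/

set_option autoImplicit false

namespace Run7.h177.TA

open MvPolynomial Filter Topology
open Pool.Agent.TH182.TC (PS Holo)
open Run7.h418 (ImmAt)

/-! ### Piece PRI: a primitive element -/

/-- `K` is a field which contains `ℂ(u)`, the `u_i` are algebraically independent, and all elements of
`K` are of degree `< D` over `ℂ(u)`. Then `K = ℂ(u, θ)` with `θ` integral over `ℂ[u]`, and `M` is its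
minimal polynomial over `ℂ[u]` (`ℂ[u]` is integrally closed: `minpoly.isIntegrallyClosed_dvd`). Choose `θ`
of maximal degree; for `f` in `K` the field `ℂ(u)(θ, f)` is generated by one element
(`Field.exists_primitive_element`), so it is `ℂ(u)(θ)`. The polynomial rings
`MvPolynomial (Option (Fin w)) ℂ` and `Polynomial (MvPolynomial (Fin w) ℂ)` are isomorphic by
`MvPolynomial.optionEquivLeft`. -/
def S_PRI : Prop :=
  ∀ (K : Type) [Field K] [Algebra ℂ K] (w D : ℕ) (u : Fin w → K), AlgebraicIndependent ℂ u →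
    (∀ f : K, ∃ c : Polynomial (MvPolynomial (Fin w) ℂ), c ≠ 0 ∧ c.natDegree < D ∧
      c.eval₂ (aeval u).toRingHom f = 0) →
    ∃ (θ : K) (M : Pl ℂ w),
      (∀ H : Pl ℂ w, aeval (fun o : Option (Fin w) => o.elim θ u) H = 0 ↔ M ∣ H) ∧
      aeval (fun o : Option (Fin w) => o.elim θ u) (pderiv none M) ≠ 0 ∧
      ∀ f : K, ∃ p q : Pl ℂ w, aeval (fun o : Option (Fin w) => o.elim θ u) q ≠ 0 ∧
        aeval (fun o : Option (Fin w) => o.elim θ u) q * f =
          aeval (fun o : Option (Fin w) => o.elim θ u) p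

/-! ### Piece COO: choice of coordinates -/

/-- If the derivative of `g` is injective at `t₁` then there are `w` affine coordinates
`u_i = x_(l i) / x_l0` of projective space such that the derivatives of the functions `u_i (g t)` at `t₁` are
linearly independent. (Choose `l0` with `φ_l0 (t₁) ≠ 0`; the derivatives of all `φ_l / φ_l0` at `t₁` have no
common kernel, so `w` of them form a basis of the dual space.) -/
def S_COO : Prop :=
  ∀ (w n : ℕ) (g : (Fin w → ℂ) → PS n) (t₁ : Fin w → ℂ), ImmAt g t₁ →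
    ∃ (l0 : Fin (n + 1)) (l : Fin w → Fin (n + 1)), (g t₁).rep l0 ≠ 0 ∧
      ∀ v, (∀ i, fderiv ℂ (fun t => (g t).rep (l i) / (g t).rep l0) t₁ v = 0) → v = 0

/-! ### Piece AIN: local coordinates are algebraically independent -/

/-- The map `u` is open at `t₁` (inverse function theorem), and a polynomial which vanishes on a nonempty
open set is zero. -/
def S_AIN : Prop :=
  ∀ (w : ℕ) (u : Fin w → (Fin w → ℂ) → ℂ) (t₁ : Fin w → ℂ), (∀ i, AnalyticAt ℂ (u i) t₁) →
    (∀ v, (∀ i, fderiv ℂ (u i) t₁ v = 0) → v = 0) → ∀ H : MvPolynomial (Fin w) ℂ,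
    (∀ᶠ t in 𝓝 t₁, eval (fun i => u i t) H = 0) → H = 0

end Run7.h177.TA
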