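import Pool.Agent.Run7.h177.TA.Fd
import Pool.Agent.Run7.h177.TA.Iface2

/-!
The field is finite over `ℂ(u)`; the choice of the fixed point `t₀`.
-/

set_option autoImplicit false

namespace Run7.h177.TA

open MvPolynomial Filter Topology
open Pool.Agent.TH182.TC (PS Holo eval_smul_of_homog)
open Pool.Agent.W602.GT (IsForm)
open Run7.h418 (ImmAt)

variable {w n : ℕ} {g : (Fin w → ℂ) → PS n}

/-! ### translation of polynomials -/

/-- translation by `k` -/
noncomputable def tr (k : Option (Fin w) → ℂ) : Pl ℂ w →ₐ[ℂ] Pl ℂ w := aeval fun j => X j + C (k j)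

theorem tr_tr (k : Option (Fin w) → ℂ) (H : Pl ℂ w) : tr k (tr (-k) H) = H := by
  have h1 : (tr k).comp (tr (-k)) = AlgHom.id ℂ _ := by
    apply algHom_ext
    intro j
    simp [tr]
  exact congrArg (fun φ : Pl ℂ w →ₐ[ℂ] Pl ℂ w => φ H) h1

theorem tr_tr' (k : Option (Fin w) → ℂ) (H : Pl ℂ w) : tr (-k) (tr k H) = H := by
  have h1 := tr_tr (-k) H
  rwa [neg_neg] at h1

theorem aeval_tr {K : Type} [Field K] [Algebra ℂ K] (k : Option (Fin w) → ℂ)
    (U : Option (Fin w) → K) (H : Pl ℂ w) :
    aeval (fun j => U j - algebraMap ℂ K (k j)) (tr k H) = aeval U H := by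
  have h1 : (aeval (fun j => U j - algebraMap ℂ K (k j))).comp (tr k) = aeval U := by
    apply algHom_ext
    intro j
    simp [tr]
  exact congrArg (fun φ : Pl ℂ w →ₐ[ℂ] K => φ H) h1

theorem pderiv_tr (k : Option (Fin w) → ℂ) (H : Pl ℂ w) :
    pderiv none (tr k H) = tr k (pderiv none H) := by
  induction H using MvPolynomial.induction_on with
  | C c =>
    simp [tr]
  | add p q hp hq => simp only [map_add, hp, hq]
  | mul_X p i hp =>
    rw [map_mul, Derivation.leibniz, Derivation.leibniz, hp, map_add]
    simp only [smul_eq_mul, map_mul]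
    congr 2
    · simp only [tr, aeval_X, map_add, pderiv_X, pderiv_C, add_zero]
      by_cases h : i = none
      · subst h
        simp
      · rw [Pi.single_eq_of_ne h, map_zero]

theorem constantCoeff_tr (k : Option (Fin w) → ℂ) (H : Pl ℂ w) :
    constantCoeff (tr k H) = eval k H := by
  have h1 : (constantCoeff : Pl ℂ w →+* ℂ).comp (tr k : Pl ℂ w →+* Pl ℂ w) = eval k := by
    apply ringHom_ext
    · intro c
      simp [tr]
    · intro j
      simp [tr]
  exact congrArg (fun φ : Pl ℂ w →+* ℂ => φ H) h1

theorem lc_eq (j : Option (Fin w)) (H : Pl ℂ w) : lc j H = constantCoeff (pderiv j H) := by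
  classical
  unfold lc
  induction H using MvPolynomial.induction_on with
  | C c =>
    rw [pderiv_C, map_zero, coeff_C, if_neg]
    intro h0
    have := DFunLike.congr_fun h0 j
    simp at this
  | add p q hp hq => rw [coeff_add, map_add, map_add, hp, hq]
  | mul_X p i hp =>
    rw [Derivation.leibniz, map_add, coeff_mul_X']
    simp only [smul_eq_mul, map_mul, constantCoeff_X, zero_mul, add_zero, pderiv_X]
    by_cases h : i = j
    · subst h
      rw [if_pos (by simp), Pi.single_eq_same, map_one, mul_one, constantCoeff_eq]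
      congr 1
      ext k
      simp
    · rw [if_neg, Pi.single_eq_of_ne h, map_zero, mul_zero]
      rw [Finsupp.mem_support_iff, Finsupp.single_apply, if_neg (Ne.symm h)]
      simp

theorem MH.form {J : Type} (j : J) {Q : MvPolynomial (Fin (n + 1)) ℂ} {d : ℕ} (hQ : Q.IsHomogeneous d) :
    MH (Finsupp.single j d) (MvPolynomial.rename (fun l => (j, l)) Q : MvPolynomial (J × Fin (n + 1)) ℂ) := by
  classical
  have hinj : Function.Injective (fun l : Fin (n + 1) => ((j, l) : J × Fin (n + 1))) :=
    fun a b hab => (Prod.ext_iff.1 hab).2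
  intro m hm i
  rw [support_rename_of_injective hinj, Finset.mem_image] at hm
  obtain ⟨m', hm', rfl⟩ := hm
  by_cases h : j = i
  · subst h
    rw [Finsupp.single_eq_same]
    have h1 := hQ (mem_support_iff.1 hm')
    rw [Finsupp.weight_apply, Finsupp.sum_fintype _ _ (fun _ => by simp)] at h1
    simp only [Pi.one_apply, smul_eq_mul, mul_one] at h1
    rw [← h1]
    exact Finset.sum_congr rfl fun l _ => Finsupp.mapDomain_apply hinj m' l
  · rw [Finsupp.single_apply, if_neg h]
    refine Finset.sum_eq_zero fun l _ => ?_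
    refine Finsupp.mapDomain_of_notMem_range _ _ ?_
    rintro ⟨l', hl'⟩
    exact h (Prod.ext_iff.1 hl').1

end Run7.h177.TA
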