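import Pool.Agent.Run7.h177.TA.Fe

/-!
The field is of bounded degree over `ℂ(u)`.
-/

set_option autoImplicit false

namespace Run7.h177.TA

open MvPolynomial Filter Topology
open Pool.Agent.TH182.TC (PS Holo eval_smul_of_homog)
open Pool.Agent.W602.GT (IsForm)
open Run7.h418 (ImmAt)

variable {w n : ℕ} {g : (Fin w → ℂ) → PS n}

/-- the relation of `S_SIE` as a polynomial -/
noncomputable def relM {D A : ℕ} (c : (Fin w → Fin (A + 1)) → Fin D → ℂ) (b : Fin D) :
    MvPolynomial (Fin w) ℂ := ∑ α, C (c α b) * ∏ i, X i ^ (α i : ℕ)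

noncomputable def relP {D A : ℕ} (c : (Fin w → Fin (A + 1)) → Fin D → ℂ) :
    Polynomial (MvPolynomial (Fin w) ℂ) := ∑ b : Fin D, Polynomial.C (relM c b) * Polynomial.X ^ (b : ℕ)

theorem relM_ne {D A : ℕ} {c : (Fin w → Fin (A + 1)) → Fin D → ℂ} {b : Fin D} {α : Fin w → Fin (A + 1)}
    (h : c α b ≠ 0) : relM c b ≠ 0 := by
  classical
  intro h0
  apply h
  have h1 := congrArg (coeff (Finsupp.equivFunOnFinite.symm fun i => (α i : ℕ))) h0
  rw [coeff_zero] at h1
  rw [← h1]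
  unfold relM
  have h2 : ∀ α' : Fin w → Fin (A + 1), (∏ i, X i ^ (α' i : ℕ) : MvPolynomial (Fin w) ℂ) =
      monomial (Finsupp.equivFunOnFinite.symm fun i => (α' i : ℕ)) 1 := by
    intro α'
    rw [monomial_eq, C_1, one_mul, Finsupp.prod_fintype _ _ (fun _ => pow_zero _)]
    rfl
  simp only [h2, coeff_sum, coeff_C_mul, coeff_monomial]
  rw [Finset.sum_eq_single α]
  · rw [if_pos rfl, mul_one]
  · intro α' _ hne
    rw [if_neg, mul_zero]
    intro he
    apply hne
    have := Finsupp.equivFunOnFinite.symm.injective he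
    funext i
    exact Fin.ext (congrFun this i)
  · intro h
    exact absurd (Finset.mem_univ _) h

theorem relP_ne {D A : ℕ} {c : (Fin w → Fin (A + 1)) → Fin D → ℂ} (h : c ≠ 0) : relP c ≠ 0 := by
  classical
  obtain ⟨α, hα⟩ := Function.ne_iff.1 h
  obtain ⟨b, hb⟩ := Function.ne_iff.1 hα
  intro h0
  apply relM_ne (b := b) hb
  have h1 := congrArg (fun p => Polynomial.coeff p (b : ℕ)) h0
  simp only [Polynomial.coeff_zero] at h1
  rw [← h1]
  unfold relP
  rw [Polynomial.finsetSum_coeff, Finset.sum_eq_single b]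
  · rw [Polynomial.coeff_C_mul_X_pow, if_pos rfl]
  · intro b' _ hne
    rw [Polynomial.coeff_C_mul_X_pow, if_neg]
    intro he
    exact hne (Fin.ext he.symm)
  · intro h
    exact absurd (Finset.mem_univ _) h

theorem relP_deg {D A : ℕ} {c : (Fin w → Fin (A + 1)) → Fin D → ℂ} (h : c ≠ 0) :
    (relP c).natDegree < D := by
  rw [Polynomial.natDegree_lt_iff_degree_lt (relP_ne h)]
  exact Polynomial.degree_sum_fin_lt _

/-- the same relation as a polynomial in `w + 1` variables -/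
noncomputable def relH {D A : ℕ} (c : (Fin w → Fin (A + 1)) → Fin D → ℂ) : Pl ℂ w :=
  ∑ b : Fin D, (∑ α, C (c α b) * ∏ i, X (some i) ^ (α i : ℕ)) * X none ^ (b : ℕ)

theorem relH_eq {K : Type} [Field K] [Algebra ℂ K] {D A : ℕ} (c : (Fin w → Fin (A + 1)) → Fin D → ℂ)
    (u : Fin w → K) (f : K) : (relP c).eval₂ (aeval u).toRingHom f =
      aeval (fun o : Option (Fin w) => o.elim f u) (relH c) := by
  unfold relP relH relM
  rw [Polynomial.eval₂_finsetSum, map_sum]
  refine Finset.sum_congr rfl fun b _ => ?_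
  rw [Polynomial.eval₂_mul, Polynomial.eval₂_C, Polynomial.eval₂_X_pow, map_mul, map_pow, aeval_X]
  congr 1
  change aeval u _ = _
  rw [map_sum, map_sum]
  refine Finset.sum_congr rfl fun α _ => ?_
  simp only [map_mul, aeval_C, map_prod, map_pow, aeval_X, Option.elim_some]

theorem relH_eval {D A : ℕ} (c : (Fin w → Fin (A + 1)) → Fin D → ℂ) (x : Fin w → ℂ) (x0 P Q : ℂ)
    (h0 : x0 ≠ 0) (hQ : Q ≠ 0)
    (hr : ∑ α, ∑ b, c α b * x0 ^ (w * A - ∑ i, (α i : ℕ)) * (∏ i, x i ^ (α i : ℕ)) * P ^ (b : ℕ) *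
      Q ^ (D - 1 - (b : ℕ)) = 0) :
    eval (fun o : Option (Fin w) => o.elim (P / Q) fun i => x i / x0) (relH c) = 0 := by
  have h1 : eval (fun o : Option (Fin w) => o.elim (P / Q) fun i => x i / x0) (relH c) *
      (x0 ^ (w * A) * Q ^ (D - 1)) = 0 := by
    rw [← hr, Finset.sum_comm]
    unfold relH
    rw [map_sum, Finset.sum_mul]
    refine Finset.sum_congr rfl fun b _ => ?_
    rw [map_mul, map_sum, Finset.sum_mul, Finset.sum_mul]
    refine Finset.sum_congr rfl fun α _ => ?_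
    simp only [map_mul, eval_C, map_prod, map_pow, eval_X, Option.elim_some, Option.elim_none]
    have h2 : ∑ i, (α i : ℕ) ≤ w * A := by
      calc ∑ i, (α i : ℕ) ≤ ∑ _i : Fin w, A := Finset.sum_le_sum fun i _ => Nat.lt_succ_iff.1 (α i).2
        _ = w * A := by simp
    have h3 : (b : ℕ) ≤ D - 1 := by have := b.2; omega
    have h4 : ∏ i, (x i / x0) ^ (α i : ℕ) = (∏ i, x i ^ (α i : ℕ)) / x0 ^ (∑ i, (α i : ℕ)) := by
      rw [← Finset.prod_pow_eq_pow_sum, ← Finset.prod_div_distrib]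
      exact Finset.prod_congr rfl fun i _ => div_pow _ _ _
    have h5 : x0 ^ (w * A) = x0 ^ (∑ i, (α i : ℕ)) * x0 ^ (w * A - ∑ i, (α i : ℕ)) := by
      rw [← pow_add, Nat.add_sub_cancel' h2]
    have h6 : Q ^ (D - 1) = Q ^ (b : ℕ) * Q ^ (D - 1 - (b : ℕ)) := by
      rw [← pow_add, Nat.add_sub_cancel' h3]
    rw [h4, h5, h6, div_pow]
    have h7 := pow_ne_zero (∑ i, (α i : ℕ)) h0
    have h8 := pow_ne_zero (b : ℕ) hQ
    field_simp
  exact (mul_eq_zero.1 h1).resolve_right (mul_ne_zero (pow_ne_zero _ h0) (pow_ne_zero _ hQ))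

theorem deg_bound (hS : S_SIE) (hw : 0 < w) (b : Module.Basis (Fin (2 * w)) ℝ (Fin w → ℂ))
    (hg : Holo g) (hper : ∀ z i, g (z + b i) = g z) (h : Idt g) : ∃ D : ℕ,
    ∀ (t₁ : Fin w → ℂ) (l0 : Fin (n + 1)) (h0 : (g t₁).rep l0 ≠ 0) (l : Fin w → Fin (n + 1))
      (f : Mer h), ∃ c : Polynomial (MvPolynomial (Fin w) ℂ), c ≠ 0 ∧ c.natDegree < D ∧
      c.eval₂ (aeval fun i => yc h h0 (l i)).toRingHom f = 0 := by
  obtain ⟨D, hD⟩ := hS w n b g hw hg hper
  refine ⟨D, fun t₁ l0 h0 l f => ?_⟩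
  obtain ⟨P, Q, ⟨⟨β, h1, h2⟩, h3⟩, hf⟩ := f.2
  obtain ⟨A, c, hc, hr⟩ := hD β P Q h1 h2 l0 l
  refine ⟨relP c, relP_ne hc, relP_deg hc, ?_⟩
  rw [relH_eq]
  -- a point where all is defined
  have e1 := h.ev_res h2 h3
  have e2 := h.ev_res (MH.X (0, 0) l0) (pr_X h0 l0).ne
  obtain ⟨t₂, ht, ht'⟩ := (e1.and e2).exists
  have ho : ∀ {β : (ℕ × (Fin w → ℂ)) →₀ ℕ} {R : MvPolynomial ((ℕ × (Fin w → ℂ)) × Fin (n + 1)) ℂ},
      MH β R → ev g R t₂ ≠ 0 → ∀ᶠ t in 𝓝 t₂, ev g R t ≠ 0 := by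
    intro β R hR h0
    rcases h.dich β R hR with hd | ⟨hd, -⟩
    · exact absurd (hd t₂) h0
    · exact hd.mem_nhds h0
  have o1 := ho h2 ht
  have o2 := ho (MH.X (0, 0) l0) ht'
  have hx : ∀ l' t, ev g (X ((0, 0), l')) t = (g t).rep l' := by
    intro l' t
    unfold ev
    rw [eval_X, mp_zero]
  have hA : Ag ((aeval (fun o : Option (Fin w) => o.elim f fun i => yc h h0 (l i)) (relH c) : Mer h) :
      Gm w) t₂ (fun t => eval (fun o : Option (Fin w) => o.elim (ev g P t / ev g Q t)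
        fun i => (g t).rep (l i) / (g t).rep l0) (relH c)) := by
    have h5 : ((aeval (fun o : Option (Fin w) => o.elim f fun i => yc h h0 (l i)) (relH c) : Mer h) :
        Gm w) = aeval (fun o : Option (Fin w) =>
          ((o.elim f fun i => yc h h0 (l i) : Mer h) : Gm w)) (relH c) := by
      have h6 : (Mer h).val (aeval (fun o : Option (Fin w) => o.elim f fun i => yc h h0 (l i))
          (relH c)) = aeval (fun o : Option (Fin w) =>
            (Mer h).val (o.elim f fun i => yc h h0 (l i))) (relH c) := by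
        rw [← AlgHom.comp_apply, comp_aeval]
      exact h6
    rw [h5]
    have h7 := Ag.aeval (t₀ := t₂) (f := fun o : Option (Fin w) =>
      ((o.elim f fun i => yc h h0 (l i) : Mer h) : Gm w))
      (F := fun o t => o.elim (ev g P t / ev g Q t) fun i => (g t).rep (l i) / (g t).rep l0) (by
        rintro (_ | i)
        · change Ag (f : Gm w) t₂ _
          rw [hf]
          exact ag_fr h ⟨⟨β, h1, h2⟩, h3⟩ ht
        · exact ag_yc h h0 (l i) (by rw [← hx]; exact ht')) (relH c)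
    exact h7
  refine Mer.eq_zero h _ hA ?_
  filter_upwards [o1, o2] with t hq hx0
  exact relH_eval c _ _ _ _ (by rw [← hx]; exact hx0) hq (hr t)

end Run7.h177.TA
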