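import Pool.Agent.Run7.h177.TA.Ff

/-!
The chart at a generic point.
-/

set_option autoImplicit false

namespace Run7.h177.TA

open MvPolynomial Filter Topology
open Pool.Agent.TH182.TC (PS Holo OnX eval_smul_of_homog)
open Pool.Agent.W602.GT (IsForm)
open Run7.h418 (ImmAt)

variable {w n : ℕ} {g : (Fin w → ℂ) → PS n}

theorem algIndep (hA : S_AIN) (h : Idt g) {t₁ : Fin w → ℂ} {l0 : Fin (n + 1)}
    (h0 : (g t₁).rep l0 ≠ 0) {l : Fin w → Fin (n + 1)}
    (hj : ∀ v, (∀ i, fderiv ℂ (fun t => (g t).rep (l i) / (g t).rep l0) t₁ v = 0) → v = 0) :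
    AlgebraicIndependent ℂ (fun i => yc h h0 (l i)) := by
  rw [algebraicIndependent_iff]
  intro p hp
  refine hA w (fun i t => (g t).rep (l i) / (g t).rep l0) t₁ (fun i => (ag_yc h h0 (l i) h0).1) hj p ?_
  have h1 : Ag ((aeval (fun i => yc h h0 (l i)) p : Mer h) : Gm w) t₁
      (fun t => eval (fun i => (g t).rep (l i) / (g t).rep l0) p) := by
    have h5 : ((aeval (fun i => yc h h0 (l i)) p : Mer h) : Gm w) =
        aeval (fun i => ((yc h h0 (l i) : Mer h) : Gm w)) p := by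
      have h6 : (Mer h).val (aeval (fun i => yc h h0 (l i)) p) =
          aeval (fun i => (Mer h).val (yc h h0 (l i))) p := by
        rw [← AlgHom.comp_apply, comp_aeval]
      exact h6
    rw [h5]
    exact Ag.aeval (fun i => ag_yc h h0 (l i) h0) p
  rw [hp] at h1
  have h2 : Ag ((0 : Mer h) : Gm w) t₁ (fun _ => (0 : ℂ)) := by
    have := Ag.const (w := w) (t₀ := t₁) 0
    rwa [map_zero] at this
  exact h1.eventually h2

theorem jac_iff (L : Fin w → ((Fin w → ℂ) →L[ℂ] ℂ)) : (∀ v, (∀ i, L i v = 0) → v = 0) ↔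
    (Matrix.of fun i j => L i (Pi.single j 1)).det ≠ 0 := by
  have h1 : ∀ v i, ((Matrix.of fun i j => L i (Pi.single j 1)).mulVec v) i = L i v := by
    intro v i
    rw [Matrix.mulVec, dotProduct]
    conv_rhs => rw [← Finset.univ_sum_single v, map_sum]
    refine Finset.sum_congr rfl fun j _ => ?_
    have : (Pi.single j (v j) : Fin w → ℂ) = v j • Pi.single j 1 := by
      rw [← Pi.single_smul, smul_eq_mul, mul_one]
    rw [this, map_smul, smul_eq_mul, mul_comm]
    rfl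
  rw [ne_eq, ← Matrix.exists_mulVec_eq_zero_iff]
  push Not
  constructor
  · intro h v hv h0
    exact hv (h v fun i => by rw [← h1, h0]; rfl)
  · intro h v hv
    by_contra hne
    exact h v hne (funext fun i => by rw [h1, hv]; rfl)

theorem jac_open {u : Fin w → (Fin w → ℂ) → ℂ} {t₁ : Fin w → ℂ} (hu : ∀ i, AnalyticAt ℂ (u i) t₁)
    (hj : ∀ v, (∀ i, fderiv ℂ (u i) t₁ v = 0) → v = 0) :
    ∀ᶠ t in 𝓝 t₁, ∀ v, (∀ i, fderiv ℂ (u i) t v = 0) → v = 0 := by
  simp only [jac_iff]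
  rw [jac_iff] at hj
  have h1 : ContinuousAt (fun t => (Matrix.of fun i j => fderiv ℂ (u i) t (Pi.single j 1)).det) t₁ := by
    have h2 : Continuous (fun A : Matrix (Fin w) (Fin w) ℂ => A.det) := continuous_id.matrix_det
    refine h2.continuousAt.comp ?_
    refine continuousAt_pi.2 fun i => continuousAt_pi.2 fun j => ?_
    have h3 : ContinuousAt (fun t => fderiv ℂ (u i) t) t₁ := (hu i).fderiv.continuousAt
    exact h3.clm_apply continuousAt_const
  exact h1.eventually_ne hj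

theorem exists_cht (hI : S_IDT) (hS : S_SIE) (hP : S_PRI) (hC : S_COO) (hA : S_AIN) (hw : 0 < w)
    (b : Module.Basis (Fin (2 * w)) ℝ (Fin w → ℂ)) (hg : Holo g) (hper : ∀ z i, g (z + b i) = g z)
    {t₁ : Fin w → ℂ} (him : ImmAt g t₁) {Q : MvPolynomial (Fin (n + 1)) ℂ} (hQ : IsForm Q)
    (hQ0 : ∃ t, eval (g t).rep Q ≠ 0) :
    ∃ (h : Idt g) (t₀ : Fin w → ℂ) (U : Option (Fin w) → Mer h)
      (V : Option (Fin w) → (Fin w → ℂ) → ℂ) (M : Pl ℂ w) (l0 : Fin (n + 1)) (l : Fin w → Fin (n + 1))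
      (κ : Fin w → ℂ) (h0 : (g t₀).rep l0 ≠ 0), Cht h t₀ U V M ∧
      (∀ i, U (some i) = yc h h0 (l i) - algebraMap ℂ (Mer h) (κ i)) ∧ eval (g t₀).rep Q ≠ 0 := by
  classical
  have h : Idt g := idt_of hI hg
  obtain ⟨l0, l, h1, hj⟩ := hC w n g t₁ him
  obtain ⟨D, hD⟩ := deg_bound hS hw b hg hper h
  obtain ⟨θ, M, hker, hpd, hgen⟩ := hP (Mer h) w D (fun i => yc h h1 (l i)) (algIndep hA h h1 hj)
    (hD t₁ l0 h1 l)
  obtain ⟨Θ, hΘ, -⟩ := Mer.exists_ag h θ
  obtain ⟨G, hG, hG0⟩ := Mer.exists_ag h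
    (aeval (fun o : Option (Fin w) => o.elim θ fun i => yc h h1 (l i)) (pderiv none M))
  -- generic conditions
  have hx : ∀ l' t, ev g (X ((0, 0), l')) t = (g t).rep l' := by
    intro l' t
    unfold ev
    rw [eval_X, mp_zero]
  have e1 := h.ev_res (MH.X (0, 0) l0) (pr_X h1 l0).ne
  obtain ⟨d, hQd⟩ := hQ
  have hQe : ∀ t, ev g (MvPolynomial.rename (fun l => ((0, 0), l)) Q) t = eval (g t).rep Q := by
    intro t
    unfold ev
    rw [eval_rename]
    congr 2
    funext l'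
    simp only [Function.comp_apply, mp_zero]
  have e2 := h.ev_res (MH.form (0, 0) hQd) (by
    obtain ⟨t, ht⟩ := hQ0
    exact ⟨t, by rw [hQe]; exact ht⟩)
  have e3 := jac_open (fun i => (ag_yc h h1 (l i) h1).1) hj
  have := nr_neBot t₁
  have e4 : ∀ᶠ t in residual (Fin w → ℂ), Ag (θ : Gm w) t Θ ∧ Ag ((aeval (fun o : Option (Fin w) =>
      o.elim θ fun i => yc h h1 (l i)) (pderiv none M) : Mer h) : Gm w) t G ∧ G t ≠ 0 ∧
      ev g (X ((0, 0), l0)) t ≠ 0 ∧ ev g (MvPolynomial.rename (fun l => ((0, 0), l)) Q) t ≠ 0 := by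
    filter_upwards [hΘ, hG, hG0 hpd, e1, e2] with t a1 a2 a3 a4 a5
    exact ⟨a1, a2, a3, a4, a5⟩
  have e5 : ∀ᶠ t in nr t₁, _ := (e3.filter_mono inf_le_left).and (e4.filter_mono inf_le_right)
  obtain ⟨t₀, hj0, hΘ0, hG1, hG2, h0, hQ1⟩ := e5.exists
  rw [hx] at h0
  rw [hQe] at hQ1
  -- the data at `t₀`
  let W : Option (Fin w) → (Fin w → ℂ) → ℂ := fun o t => o.elim (Θ t) fun i =>
    (g t).rep (l i) / (g t).rep l0
  let k : Option (Fin w) → ℂ := fun o => W o t₀
  let U₀ : Option (Fin w) → Mer h := fun o => o.elim θ fun i => yc h h1 (l i)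
  have hW : ∀ o, Ag (U₀ o : Gm w) t₀ (W o) := by
    rintro (_ | i)
    · exact hΘ0
    · exact ag_yc h h1 (l i) h0
  refine ⟨h, t₀, fun o => U₀ o - algebraMap ℂ (Mer h) (k o), fun o t => W o t - k o, tr k M, l0, l,
    fun i => k (some i), h0, ⟨fun o => ?_, fun o => sub_self _, fun H => ?_, fun f => ?_,
    fun v hv => ?_, ?_⟩, fun i => rfl, hQ1⟩
  · -- ag
    have h2 := (hW o).add (Ag.const (w := w) (t₀ := t₀) (-k o))
    have h3 : ((U₀ o - algebraMap ℂ (Mer h) (k o) : Mer h) : Gm w) =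
        (U₀ o : Gm w) + algebraMap ℂ (Gm w) (-k o) := by
      rw [map_neg, ← sub_eq_add_neg]
      rfl
    rw [h3]
    exact h2.congr (Eventually.of_forall fun t => sub_eq_add_neg _ _)
  · -- ker
    have h2 : aeval (fun o => U₀ o - algebraMap ℂ (Mer h) (k o)) H = aeval U₀ (tr (-k) H) := by
      rw [← aeval_tr k U₀, tr_tr]
    rw [h2]
    have h3 := hker (tr (-k) H)
    rw [show aeval U₀ (tr (-k) H) = 0 ↔ M ∣ tr (-k) H from h3]
    constructor
    · intro hd
      have := map_dvd (tr k) hd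
      rwa [tr_tr] at this
    · intro hd
      have := map_dvd (tr (-k)) hd
      rwa [tr_tr'] at this
  · -- gen
    obtain ⟨p, q, hq, hpq⟩ := hgen f
    refine ⟨tr k p, tr k q, ?_, ?_⟩
    · rw [aeval_tr]
      exact hq
    · rw [aeval_tr, aeval_tr]
      exact hpq
  · -- jac
    refine hj0 v fun i => ?_
    have h2 := hv i
    rw [fderiv_sub_const] at h2
    exact h2
  · -- dm
    rw [lc_eq, pderiv_tr, constantCoeff_tr]
    have h2 : Ag ((aeval U₀ (pderiv none M) : Mer h) : Gm w) t₀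
        (fun t => eval (fun o => W o t) (pderiv none M)) := by
      have h5 : ((aeval U₀ (pderiv none M) : Mer h) : Gm w) =
          aeval (fun o => (U₀ o : Gm w)) (pderiv none M) := by
        have h6 : (Mer h).val (aeval U₀ (pderiv none M)) =
            aeval (fun o => (Mer h).val (U₀ o)) (pderiv none M) := by
          rw [← AlgHom.comp_apply, comp_aeval]
        exact h6
      rw [h5]
      exact Ag.aeval hW _
    have h3 := (h2.eventually hG1).self_of_nhds
    rw [← h3] at hG2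
    exact hG2

end Run7.h177.TA
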