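import Pool.Agent.Run7.h177.TA.Fg

/-!
Theorem A: complex tori in a variety over a number field, and its points over number fields.
-/

set_option autoImplicit false

namespace Run7.h177.TA

open MvPolynomial Filter Topology
open Pool.Agent.Q103.AR (Points)
open Pool.Agent.TH182.TC (PS Holo OnX eval_smul_of_homog)
open Pool.Agent.W602.GT (IsForm)
open Run7.h418 (ImmAt)

theorem isForm_map {k : Type} [Field k] (σ : k →+* ℂ) {n : ℕ} {F : MvPolynomial (Fin (n + 1)) k}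
    (hF : IsForm F) : IsForm (map σ F) := by
  obtain ⟨d, hd⟩ := hF
  exact ⟨d, hd.map σ⟩

/-- **Theorem A.** -/
theorem thmA (hI : S_IDT) (hS : S_SIE) (hP : S_PRI) (hC : S_COO) (hA : S_AIN) (hK : S_KRU)
    (hD : S_DES) (hT : S_PTS) {k : Type} [Field k] [NumberField k] (σ : k →+* ℂ) {n : ℕ} {ι : Type}
    (F : ι → MvPolynomial (Fin (n + 1)) k) (hF : ∀ i, IsForm (F i))
    (Q : MvPolynomial (Fin (n + 1)) k) (hQ : IsForm Q) {w : ℕ} (hw : 0 < w)
    (b : Module.Basis (Fin (2 * w)) ℝ (Fin w → ℂ)) {g : (Fin w → ℂ) → PS n} (hg : Holo g)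
    (hper : ∀ z i, g (z + b i) = g z) {t₁ : Fin w → ℂ} (him : ImmAt g t₁)
    (hX : ∀ t, OnX (fun i => map σ (F i)) (g t)) (hQ0 : ∃ t, eval (g t).rep (map σ Q) ≠ 0) :
    ∃ (L : Type) (_ : Field L) (_ : NumberField L) (_ : Algebra k L),
      (Points F L \ Points (fun _ : Unit => Q) L).Infinite := by
  obtain ⟨h, t₀, U, V, M, l0, l, κ, h0, c, hU, hQ1⟩ :=
    exists_cht hI hS hP hC hA hw b hg hper him (isForm_map σ hQ) hQ0
  obtain ⟨D, hGD⟩ := c.dyn hK h0 hU (fun i => map σ (F i)) (fun i => isForm_map σ (hF i))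
    (fun i t => hX t i) (isForm_map σ hQ) hQ1
  obtain ⟨D', hGD'⟩ := hD k σ w n ι F Q D hGD
  exact hT k w n hw ι F Q hF hQ D' hGD'

end Run7.h177.TA
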