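import Pool.Agent.Run7.h177.TA.Fh
import Pool.Agent.Run7.h177.TA.Bdd
import Pool.Agent.Run7.h588.TA.ADI
import Pool.Agent.Run7.h711.TA.COO
import Pool.Agent.Run7.h711.TA.PRI
import Pool.Agent.Run7.h939.TA.Des
import Pool.Agent.Run7.h811.TA.IDT
import Pool.Agent.Run7.h862.TA.JET
import Pool.Agent.Run7.h862.TA.TAY
import Pool.Agent.Run7.h824.TA.KRU
import Pool.Agent.Run7.h824.TA.SIE
import Pool.Agent.Run7.h824.TA.SCH
import Pool.Agent.Run7.h973.TA.LIP
import Pool.Agent.Run7.h160.TA.PTS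

/-!
Complex tori in varieties over number fields.
-/

set_option autoImplicit false

namespace Run7.h177.TA

open MvPolynomial Filter Topology
open Pool.Agent.Q103.AR (Points)
open Pool.Agent.TH182.TC (PS Holo OnX)
open Pool.Agent.W602.GT (IsForm)
open Run7.h418 (ImmAt)

/-- A holomorphic map from a complex torus to `X_σ` which is an immersion at some point gives
infinitely many points of `X`, not on `Q = 0`, over some number field. -/
theorem torus_points {k : Type} [Field k] [NumberField k] (σ : k →+* ℂ) {n : ℕ} {ι : Type}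
    (F : ι → MvPolynomial (Fin (n + 1)) k) (hF : ∀ i, IsForm (F i))
    (Q : MvPolynomial (Fin (n + 1)) k) (hQ : IsForm Q) {w : ℕ} (hw : 0 < w)
    (b : Module.Basis (Fin (2 * w)) ℝ (Fin w → ℂ)) {g : (Fin w → ℂ) → PS n} (hg : Holo g)
    (hper : ∀ z i, g (z + b i) = g z) {t₁ : Fin w → ℂ} (him : ImmAt g t₁)
    (hX : ∀ t, OnX (fun i => map σ (F i)) (g t)) (hQ0 : ∃ t, eval (g t).rep (map σ Q) ≠ 0) :
    ∃ (L : Type) (_ : Field L) (_ : NumberField L) (_ : Algebra k L),
      (Points F L \ Points (fun _ : Unit => Q) L).Infinite :=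
  thmA Pool.Agent.Run7.h811.TA.t_IDT
    (Run7.h824.TA.t_SIE Run7.h973.TA.t_LIP (Run7.h862.TA.t_JET Run7.h862.TA.t_TAY)
      Run7.h824.TA.t_SCH)
    Run7.h711.TA.t_PRI Run7.h711.TA.t_COO Run7.h711.TA.t_AIN
    (Run7.h824.TA.t_KRU Run7.h862.TA.t_TAY) Run7.h939.TA.t_DES
    (Run7.h160.TA.t_PTS Run7.h588.TA.t_ADI) σ F hF Q hQ hw b hg hper him hX hQ0

/-- If `Z` contains almost all points of `X` over each number field then it contains the images of
tori. -/
theorem torus_zero {k : Type} [Field k] [NumberField k] (σ : k →+* ℂ) {n : ℕ} {ι κ : Type}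
    (F : ι → MvPolynomial (Fin (n + 1)) k) (hF : ∀ i, IsForm (F i))
    (Q : κ → MvPolynomial (Fin (n + 1)) k) (hQ : ∀ j, IsForm (Q j))
    (hfin : ∀ (L : Type) [Field L] [NumberField L] [Algebra k L],
      (Points F L \ Points Q L).Finite) {w : ℕ} (hw : 0 < w)
    (b : Module.Basis (Fin (2 * w)) ℝ (Fin w → ℂ)) {g : (Fin w → ℂ) → PS n} (hg : Holo g)
    (hper : ∀ z i, g (z + b i) = g z) {t₁ : Fin w → ℂ} (him : ImmAt g t₁)
    (hX : ∀ t, OnX (fun i => map σ (F i)) (g t)) (j : κ) (t : Fin w → ℂ) :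
    eval (g t).rep (map σ (Q j)) = 0 := by
  by_contra hne
  obtain ⟨L, _, _, _, hinf⟩ := torus_points σ F hF (Q j) (hQ j) hw b hg hper him hX ⟨t, hne⟩
  exact hinf ((hfin L).subset fun P hP => ⟨hP.1, fun h => hP.2 fun _ => h j⟩)

end Run7.h177.TA
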