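import Pool.Agent.Run7.h177.TA.Fin

/-!
Complex tori in varieties over an arbitrary field of complex numbers.
-/

set_option autoImplicit false

namespace Run7.h177.TA

open MvPolynomial
open Pool.Agent.Q103.AR (Points aeval_smul_form)
open Pool.Agent.TH182.TC (PS Holo OnX)
open Pool.Agent.W602.GT (IsForm)
open Run7.h418 (ImmAt)
open Run7.h939.TA (dmap map_hom map_lc map_aeval' good_map good_descend exists_point)
open Run7.h160.TA (eval_mem)
open scoped LinearAlgebra.Projectivization

open Cardinal in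
theorem card_padic [Fact (Nat.Prime 2)] : Cardinal.mk ℂ = Cardinal.mk (PadicAlgCl 2) := by
  rw [Cardinal.mk_complex]
  apply le_antisymm
  · have h1 : 𝔠 ≤ #ℚ_[2] := continuum_le_cardinal_of_nontriviallyNormedField ℚ_[2]
    refine h1.trans ?_
    exact Cardinal.mk_le_of_injective (FaithfulSMul.algebraMap_injective ℚ_[2] (PadicAlgCl 2))
  · have h1 : #(PadicAlgCl 2) ≤ max #ℚ_[2] ℵ₀ :=
      Algebra.IsAlgebraic.cardinalMk_le_max ℚ_[2] (PadicAlgCl 2)
    refine h1.trans (max_le ?_ Cardinal.aleph0_le_continuum)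
    have h2 : #ℚ_[2] ≤ #(CauSeq ℚ (padicNorm 2)) := Cardinal.mk_quotient_le
    refine h2.trans ?_
    have h3 : #(CauSeq ℚ (padicNorm 2)) ≤ #(ℕ → ℚ) := Cardinal.mk_subtype_le _
    refine h3.trans ?_
    simp

/-- A field of complex numbers has a `2`-adic absolute value. -/
theorem exists_abv' (k : Type) [Field k] (σ : k →+* ℂ) :
    ∃ v : AbsoluteValue (AlgebraicClosure k) ℝ, IsNonarchimedean v ∧ v 2 < 1 := by
  have : Fact (Nat.Prime 2) := ⟨Nat.prime_two⟩
  let _ : Algebra k ℂ := σ.toAlgebra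
  obtain ⟨ψ⟩ := IsAlgClosed.ringEquiv_of_equiv_of_charZero (K := ℂ) (L := PadicAlgCl 2) 
    (by rw [Cardinal.mk_complex]; exact Cardinal.aleph0_lt_continuum) (Cardinal.eq.1 card_padic)
  let φ : AlgebraicClosure k →+* PadicAlgCl 2 :=
    (ψ : ℂ →+* PadicAlgCl 2).comp (IsAlgClosed.lift : AlgebraicClosure k →ₐ[k] ℂ)
  refine ⟨{ toFun := fun x => ‖φ x‖
            map_mul' := fun x y => by rw [map_mul, norm_mul]
            nonneg' := fun x => norm_nonneg _
            eq_zero' := fun x => by rw [norm_eq_zero, map_eq_zero]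
            add_le' := fun x y => by rw [map_add]; exact norm_add_le _ _ }, ?_, ?_⟩
  · intro x y
    change ‖φ (x + y)‖ ≤ max ‖φ x‖ ‖φ y‖
    rw [map_add]
    exact PadicAlgCl.isNonarchimedean 2 _ _
  · change ‖φ 2‖ < 1
    have h1 : φ 2 = (((2 : ℕ) : ℚ_[2]) : PadicAlgCl 2) := by
      rw [map_ofNat]
      norm_cast
    rw [h1, PadicAlgCl.norm_extends]
    exact Padic.norm_p_lt_one

/-- Specialisation (the proof is the one of `Run7.h939.TA.t_DES`). -/
theorem des_gen (k : Type) [Field k] (σ : k →+* ℂ) (w n : ℕ) (ι : Type)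
    (F : ι → MvPolynomial (Fin (n + 1)) k) (Q : MvPolynomial (Fin (n + 1)) k) (D : Dyn ℂ w n)
    (hG : Good (fun i => map σ (F i)) (map σ Q) D) :
    ∃ D' : Dyn (AlgebraicClosure k) w n,
      Good (fun i => map (algebraMap k (AlgebraicClosure k)) (F i))
        (map (algebraMap k (AlgebraicClosure k)) Q) D' := by
  classical
  let : Algebra k ℂ := σ.toAlgebra
  have hσ : algebraMap k ℂ = σ := rfl
  -- a finite subfamily
  obtain ⟨t, htF, hts⟩ : ∃ t : Finset (MvPolynomial (Fin (n + 1)) k),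
      (t : Set (MvPolynomial (Fin (n + 1)) k)) ⊆ Set.range F ∧
        Ideal.span (t : Set (MvPolynomial (Fin (n + 1)) k)) = Ideal.span (Set.range F) := by
    obtain ⟨t, h1, h2⟩ := (Submodule.fg_span_iff_fg_span_finset_subset (R := MvPolynomial (Fin (n + 1)) k)
      (Set.range F)).1 (IsNoetherian.noetherian _)
    exact ⟨t, h1, h2.symm⟩
  have hdiv : ∀ P ∈ t, D.M ∣ aeval D.c (map σ P) := by
    intro P hP
    obtain ⟨i, rfl⟩ := htF hP
    exact hG.eqn i
  choose! qF hqF using hdiv
  obtain ⟨e, hdeg, qI, hqI⟩ := hG.inv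
  obtain ⟨u1, hu1⟩ := hG.M1.exists_right_inv
  obtain ⟨u2, hu2⟩ := hG.c0.exists_right_inv
  obtain ⟨u3, hu3⟩ := hG.q0.exists_right_inv
  -- the finite set of polynomials
  let T : Finset (Pl ℂ w) := {D.M, D.b, qI, C u1, C u2, C u3} ∪ Finset.univ.image D.a ∪
    Finset.univ.image D.c ∪ Finset.univ.image (fun i => C (D.κ i)) ∪ t.image qF
  let S : Finset ℂ := T.biUnion coeffs
  let R : Subalgebra k ℂ := Algebra.adjoin k (S : Set ℂ)
  have hlift : ∀ p ∈ T, ∃ q : Pl R w, map (R.val : R →+* ℂ) q = p := by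
    intro p hp
    have : p ∈ Set.range (map (σ := Option (Fin w)) (R.val : R →+* ℂ)) := by
      rw [mem_range_map_iff_coeffs_subset]
      intro x hx
      refine ⟨⟨x, Algebra.subset_adjoin ?_⟩, rfl⟩
      exact Finset.mem_biUnion.2 ⟨p, hp, hx⟩
    obtain ⟨q, hq⟩ := this
    exact ⟨q, hq⟩
  have hliftC : ∀ r : ℂ, C r ∈ T → ∃ s : R, (R.val : R →+* ℂ) s = r := by
    intro r hr
    obtain ⟨q, hq⟩ := hlift _ hr
    refine ⟨constantCoeff q, ?_⟩
    rw [← constantCoeff_map, hq, constantCoeff_C]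
  obtain ⟨M', hM'⟩ := hlift D.M (by simp [T])
  obtain ⟨b', hb'⟩ := hlift D.b (by simp [T])
  obtain ⟨qI', hqI'⟩ := hlift qI (by simp [T])
  obtain ⟨v1, hv1⟩ := hliftC u1 (by simp [T])
  obtain ⟨v2, hv2⟩ := hliftC u2 (by simp [T])
  obtain ⟨v3, hv3⟩ := hliftC u3 (by simp [T])
  have ha : ∀ j, ∃ q : Pl R w, map (R.val : R →+* ℂ) q = D.a j := fun j => hlift _ (by
    simp only [T, Finset.mem_union, Finset.mem_image]
    exact Or.inl (Or.inl (Or.inl (Or.inr ⟨j, Finset.mem_univ _, rfl⟩))))
  have hc : ∀ j, ∃ q : Pl R w, map (R.val : R →+* ℂ) q = D.c j := fun j => hlift _ (by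
    simp only [T, Finset.mem_union, Finset.mem_image]
    exact Or.inl (Or.inl (Or.inr ⟨j, Finset.mem_univ _, rfl⟩)))
  have hκ : ∀ i, ∃ s : R, (R.val : R →+* ℂ) s = D.κ i := fun i => hliftC _ (by
    simp only [T, Finset.mem_union, Finset.mem_image]
    exact Or.inl (Or.inr ⟨i, Finset.mem_univ _, rfl⟩))
  have hq : ∀ P ∈ t, ∃ q : Pl R w, map (R.val : R →+* ℂ) q = qF P := fun P hP => hlift _ (by
    simp only [T, Finset.mem_union, Finset.mem_image]
    exact Or.inr ⟨P, hP, rfl⟩)
  choose a' ha' using ha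
  choose c' hc' using hc
  choose κ' hκ' using hκ
  let D' : Dyn R w n := ⟨M', a', b', c', D.l0, D.l, κ'⟩
  have hD' : dmap (R.val : R →+* ℂ) D' = D := by
    show (⟨map _ M', fun j => map _ (a' j), map _ b', fun i => map _ (c' i), D.l0, D.l,
      fun i => (R.val : R →+* ℂ) (κ' i)⟩ : Dyn ℂ w n) = D
    simp only [hM', ha', hb', hc', hκ']
  have hcomp : (R.val : R →+* ℂ).comp (algebraMap k R) = σ := by
    ext x; rfl
  have hFm : ∀ P : MvPolynomial (Fin (n + 1)) k,
      map (R.val : R →+* ℂ) (map (algebraMap k R) P) = map σ P := by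
    intro P; rw [map_map, hcomp]
  have hinj : Function.Injective (R.val : R →+* ℂ) := Subtype.val_injective
  have hpinj := map_injective (σ := Option (Fin w)) (R.val : R →+* ℂ) hinj
  have hcs : (fun i => map (R.val : R →+* ℂ) (D'.c i)) = D.c := by
    funext i; exact hc' i
  have hGR : Good (fun i => map (algebraMap k R) (F i)) (map (algebraMap k R) Q) D' := by
    apply good_descend (R.val : R →+* ℂ) hinj
    · rw [hD']; simp only [hFm]; exact hG
    · refine ⟨v1, ?_⟩
      rw [hv1, ← map_lc]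
      show lc none (map (R.val : R →+* ℂ) M') * u1 = 1
      rw [hM', hu1]
    · refine ⟨v2, ?_⟩
      rw [hv2, ← constantCoeff_map]
      show constantCoeff (map (R.val : R →+* ℂ) (c' D.l0)) * u2 = 1
      rw [hc', hu2]
    · refine ⟨v3, ?_⟩
      rw [hv3, ← constantCoeff_map, map_aeval', hcs, hFm, hu3]
    · rw [hD']
      exact ⟨e, hdeg, qI', by rw [hqI', hqI]⟩
    · -- divisibility: ideal argument
      let Φ : MvPolynomial (Fin (n + 1)) k →+* Pl R w :=
        (aeval D'.c : MvPolynomial (Fin (n + 1)) R →ₐ[R] Pl R w).toRingHom.comp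
          (map (algebraMap k R))
      have hle : Ideal.span (Set.range F) ≤ (Ideal.span {M'}).comap Φ := by
        rw [← hts, Ideal.span_le]
        intro P hP
        obtain ⟨q, hq'⟩ := hq P hP
        show Φ P ∈ Ideal.span {M'}
        rw [Ideal.mem_span_singleton]
        refine ⟨q, ?_⟩
        apply hpinj
        show map (R.val : R →+* ℂ) (aeval D'.c (map (algebraMap k R) P)) = _
        rw [map_aeval', hcs, hFm, map_mul, hM', hq', hqF P hP]
      intro i
      have := hle (Ideal.subset_span ⟨i, rfl⟩)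
      rw [Ideal.mem_comap, Ideal.mem_span_singleton] at this
      exact this
  -- Nullstellensatz
  have : Algebra.FiniteType k R := by
    have : R.FG := ⟨S, rfl⟩
    exact (Subalgebra.fg_iff_finiteType R).1 this
  obtain ⟨φ⟩ := exists_point k R
  have hφ : (φ : R →+* AlgebraicClosure k).comp (algebraMap k R) =
      algebraMap k (AlgebraicClosure k) := φ.comp_algebraMap
  refine ⟨dmap (φ : R →+* AlgebraicClosure k) D', ?_⟩
  have := good_map (φ : R →+* AlgebraicClosure k) hGR
  simp only [map_map, hφ] at this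
  exact this


/-- Infinitely many points over a finite extension (the proof is the one of
`Run7.h160.TA.t_PTS`). -/
theorem pts_gen (hA : S_ADI) (k : Type) [Field k] (σ : k →+* ℂ) (w n : ℕ) (hw : 0 < w) (ι : Type)
    (F : ι → MvPolynomial (Fin (n + 1)) k) (Q : MvPolynomial (Fin (n + 1)) k)
    (hF : ∀ i, IsForm (F i)) (hQ : IsForm Q) (D : Dyn (AlgebraicClosure k) w n)
    (hD : Good (fun i => map (algebraMap k (AlgebraicClosure k)) (F i))
      (map (algebraMap k (AlgebraicClosure k)) Q) D) :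
    ∃ (L : Type) (_ : Field L) (_ : Algebra k L) (_ : FiniteDimensional k L),
      (Points F L \ Points (fun _ : Unit => Q) L).Infinite := by
  classical
  have : CharZero k := σ.charZero
  have : CharZero (AlgebraicClosure k) := charZero_of_injective_algebraMap
    (FaithfulSMul.algebraMap_injective k (AlgebraicClosure k))
  obtain ⟨v, hv1, hv2⟩ := exists_abv' k σ
  obtain ⟨P, hM, hb, hP, hc, hq, h0, hinj⟩ := hA (AlgebraicClosure k) v hv1 hv2 w n hw ι _ _ D hD
  -- the field
  obtain ⟨cs, hcs⟩ : ∃ cs : Pl (AlgebraicClosure k) w → Finset (AlgebraicClosure k),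
      ∀ G, ∀ m ∈ G.support, coeff m G ∈ cs G :=
    ⟨fun G => G.support.image fun m => coeff m G, fun G m hm => Finset.mem_image_of_mem _ hm⟩
  obtain ⟨S, hS⟩ : ∃ S : Finset (AlgebraicClosure k), S = (Finset.univ.biUnion fun j => cs (D.a j)) ∪
      cs D.b ∪ (Finset.univ.biUnion fun i => cs (D.c i)) ∪ Finset.univ.image (P 0) := ⟨_, rfl⟩
  obtain ⟨E, hE⟩ : ∃ E : IntermediateField k (AlgebraicClosure k),
      E = IntermediateField.adjoin k (S : Set (AlgebraicClosure k)) := ⟨_, rfl⟩
  have hSE : ∀ x ∈ S, x ∈ E := fun x hx => by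
    rw [hE]
    exact IntermediateField.subset_adjoin _ _ hx
  have : FiniteDimensional k E := by
    rw [hE]
    exact IntermediateField.finiteDimensional_adjoin fun x _ =>
      (Algebra.IsAlgebraic.isAlgebraic x).isIntegral
  have hPE : ∀ m j, P m j ∈ E := by
    intro m
    induction m with
    | zero =>
      intro j
      apply hSE
      rw [hS]
      simp
    | succ m ih =>
      intro j
      rw [hP]
      refine div_mem (eval_mem E _ (fun e he => hSE _ ?_) _ ih) (eval_mem E _ (fun e he => hSE _ ?_) _ ih)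
      · rw [hS]
        simp only [Finset.mem_union, Finset.mem_biUnion, Finset.mem_univ, true_and]
        exact Or.inl (Or.inl (Or.inl ⟨j, hcs _ _ he⟩))
      · rw [hS]
        simp only [Finset.mem_union]
        exact Or.inl (Or.inl (Or.inr (hcs _ _ he)))
  have hcE : ∀ m i, eval (P m) (D.c i) ∈ E := by
    intro m i
    refine eval_mem E _ (fun e he => hSE _ ?_) _ (hPE m)
    rw [hS]
    simp only [Finset.mem_union, Finset.mem_biUnion, Finset.mem_univ, true_and]
    exact Or.inl (Or.inr ⟨i, hcs _ _ he⟩)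
  -- the points
  obtain ⟨x, hx⟩ : ∃ x : ℕ → Fin (n + 1) → E, ∀ m i, (x m i : AlgebraicClosure k) =
      eval (P m) (D.c i) := ⟨fun m i => ⟨_, hcE m i⟩, fun _ _ => rfl⟩
  have hval : ∀ m (G : MvPolynomial (Fin (n + 1)) k), (aeval (x m) G : E) =
      eval (P m) (aeval D.c (map (algebraMap k (AlgebraicClosure k)) G)) := by
    intro m G
    have h1 : ((aeval (x m) G : E) : AlgebraicClosure k) =
        aeval (fun i => (x m i : AlgebraicClosure k)) G := by
      have := MvPolynomial.aeval_algebraMap_apply (AlgebraicClosure k) (x m) G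
      exact this.symm
    rw [h1]
    have h2 : (fun i => (x m i : AlgebraicClosure k)) = fun i => eval (P m) (D.c i) :=
      funext fun i => hx m i
    rw [h2, aeval_def, aeval_def, eval₂_map, eval₂_comp_left]
    congr 1
    ext c
    simp
  have hne0 : ∀ m, x m D.l0 ≠ 0 := by
    intro m h
    apply hc m
    rw [← hx, h]
    rfl
  have hne : ∀ m, x m ≠ 0 := fun m h => hne0 m (by rw [h]; rfl)
  refine ⟨E, inferInstance, inferInstance, inferInstance, ?_⟩
  have hrep : ∀ m, ∃ c : E, c ≠ 0 ∧ (Projectivization.mk E (x m) (hne m)).rep = fun i => c * x m i := by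
    intro m
    obtain ⟨c, hc⟩ := Projectivization.exists_smul_eq_mk_rep E (x m) (hne m)
    exact ⟨c, c.ne_zero, by rw [← hc]; rfl⟩
  refine Set.infinite_of_injective_forall_mem (f := fun m => Projectivization.mk E (x m) (hne m))
    ?_ ?_
  · intro m m' h
    apply hinj
    funext i
    have h1 : Projectivization.mk E (x m) (hne m) = Projectivization.mk E (x m') (hne m') := h
    rw [Projectivization.mk_eq_mk_iff'] at h1
    obtain ⟨a, ha⟩ := h1
    -- `a • x m' = x m`
    have h2 : ∀ j, a * x m' j = x m j := fun j => by rw [← ha]; rfl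
    have h3 : ∀ m, (x m (D.l i) : AlgebraicClosure k) = x m D.l0 * (P m (some i) + D.κ i) := by
      intro m
      rw [hx, hx, hD.cl]
      simp
    have h4 := congrArg (Subtype.val) (h2 (D.l i))
    have h5 := congrArg (Subtype.val) (h2 D.l0)
    have h6 : ((a * x m' (D.l i) : E) : AlgebraicClosure k) = a * x m' (D.l i) := rfl
    have h7 : ((a * x m' D.l0 : E) : AlgebraicClosure k) = a * x m' D.l0 := rfl
    rw [h6, h3, h3] at h4
    rw [h7] at h5
    have h8 : (x m D.l0 : AlgebraicClosure k) ≠ 0 := fun h => hne0 m (Subtype.ext h)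
    have h9 : (x m D.l0 : AlgebraicClosure k) * (P m' (some i) + D.κ i) =
        x m D.l0 * (P m (some i) + D.κ i) := by
      rw [← h4, ← h5]
      ring
    have h10 := mul_left_cancel₀ h8 h9
    exact (add_right_cancel h10).symm
  · intro m
    obtain ⟨c, hc0, hc⟩ := hrep m
    constructor
    · intro e
      obtain ⟨d, hd⟩ := hF e
      change aeval (Projectivization.mk E (x m) (hne m)).rep (F e) = 0
      rw [hc, aeval_smul_form hd]
      have h1 : aeval (x m) (F e) = 0 := by
        apply Subtype.ext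
        rw [hval]
        obtain ⟨r, hr⟩ := hD.eqn e
        rw [hr, map_mul, hM, zero_mul]
        rfl
      rw [h1, mul_zero]
    · intro h
      have h1 : aeval (Projectivization.mk E (x m) (hne m)).rep Q = 0 := h ()
      obtain ⟨d, hd⟩ := hQ
      rw [hc, aeval_smul_form hd] at h1
      rcases mul_eq_zero.mp h1 with h2 | h2
      · exact pow_ne_zero _ hc0 h2
      · apply hq m
        rw [← hval, h2]
        rfl



/-- **Theorem A over an arbitrary field of complex numbers.** -/
theorem torus_points_gen {k : Type} [Field k] (σ : k →+* ℂ) {n : ℕ} {ι : Type}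
    (F : ι → MvPolynomial (Fin (n + 1)) k) (hF : ∀ i, IsForm (F i))
    (Q : MvPolynomial (Fin (n + 1)) k) (hQ : IsForm Q) {w : ℕ} (hw : 0 < w)
    (b : Module.Basis (Fin (2 * w)) ℝ (Fin w → ℂ)) {g : (Fin w → ℂ) → PS n} (hg : Holo g)
    (hper : ∀ z i, g (z + b i) = g z) {t₁ : Fin w → ℂ} (him : ImmAt g t₁)
    (hX : ∀ t, OnX (fun i => map σ (F i)) (g t)) (hQ0 : ∃ t, eval (g t).rep (map σ Q) ≠ 0) :
    ∃ (L : Type) (_ : Field L) (_ : Algebra k L) (_ : FiniteDimensional k L),
      (Points F L \ Points (fun _ : Unit => Q) L).Infinite := by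
  obtain ⟨h, t₀, U, V, M, l0, l, κ, h0, c, hU, hQ1⟩ :=
    exists_cht Pool.Agent.Run7.h811.TA.t_IDT
      (Run7.h824.TA.t_SIE Run7.h973.TA.t_LIP (Run7.h862.TA.t_JET Run7.h862.TA.t_TAY)
        Run7.h824.TA.t_SCH) Run7.h711.TA.t_PRI Run7.h711.TA.t_COO Run7.h711.TA.t_AIN
      hw b hg hper him (isForm_map σ hQ) hQ0
  obtain ⟨D, hGD⟩ := c.dyn (Run7.h824.TA.t_KRU Run7.h862.TA.t_TAY) h0 hU (fun i => map σ (F i))
    (fun i => isForm_map σ (hF i)) (fun i t => hX t i) (isForm_map σ hQ) hQ1
  obtain ⟨D', hGD'⟩ := des_gen k σ w n ι F Q D hGD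
  exact pts_gen Run7.h588.TA.t_ADI k σ w n hw ι F Q hF hQ D' hGD'

end Run7.h177.TA
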