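import Pool.Agent.Run7.h177.TA.Fin
import Pool.Agent.Run7.h418.R.SpEq
import Pool.Agent.N154.DD.KDefs
import Pool.Agent.N155.B.Geo

/-!
Rational points and entire curves in varieties with an immersive family of symmetric differentials.
-/

set_option autoImplicit false

namespace Run7.h177.TA

open Set Filter Topology LinearAlgebra.Projectivization
open Pool.Agent.Y190.OP Pool.Agent.W602.GT Pool.Agent.N155
open Pool.Agent.N154.GG (projDist Phi_rep_toProj holMap_of holP_of proj_ext toProj)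
open Pool.Agent.Q103.AR (Points)
open Pool.Agent.TH182.TC (PS OnX Holo)
open Run7.h418

variable {k : Type} [Field k] [NumberField k] {n : ℕ} {ι κ τ : Type}

/-- curves of bounded derivative -/
theorem bdd_zero (σ : k →+* ℂ) [Finite τ] (F : ι → MvPolynomial (Fin (n + 1)) k)
    (hF : ∀ i, IsForm (F i)) {m : τ → ℕ} (hm : ∀ j, 0 < m j)
    {s : τ → (Fin (n + 1) → ℂ) → (Fin (n + 1) → ℂ) → ℂ}
    (hs : ∀ j, SymForm (fun i => MvPolynomial.map σ (F i)) (m j) (s j))
    (him : Immersive (fun i => MvPolynomial.map σ (F i)) s)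
    (Q : κ → MvPolynomial (Fin (n + 1)) k) (hQ : ∀ j, IsForm (Q j))
    (hfin : ∀ (L : Type) [Field L] [NumberField L] [Algebra k L],
      (Points F L \ Points Q L).Finite) {p : ℂ → ℙ ℂ (Fin (n + 1) → ℂ)} (hp : HolMap p)
    (hpF : ∀ z, (p z).rep ∈ Cone (fun i => MvPolynomial.map σ (F i))) (hb : BoundedDer p)
    (hne : ∃ z w, p z ≠ p w) (j : κ) (z : ℂ) : val (p z).rep (MvPolynomial.map σ (Q j)) = 0 := by
  obtain ⟨w, hw, ⟨b, g, d, h1, h2, h3, h4, -⟩, -⟩ := Z.thm_torus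
    (fun i => isForm_map σ (hF i)) hm hs him hp hpF hb hne
  rw [← h4, val_ev]
  exact torus_zero σ F hF Q hQ hfin hw b (R.holo_of_imm h1) h3 (h1 0) h2 j _

/-- Brody reparametrisation with the image in the closure of the image of the given curve -/
theorem brody_closure {F : ι → MvPolynomial (Fin (n + 1)) ℂ} (hF : ∀ i, IsForm (F i))
    {f : ℂ → ℙ ℂ (Fin (n + 1) → ℂ)} (hf : HolMap f) (hfF : ∀ z, (f z).rep ∈ Cone F)
    (hne : ∃ z w, f z ≠ f w) : ∃ h : ℂ → ℙ ℂ (Fin (n + 1) → ℂ), HolMap h ∧ BoundedDer h ∧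
      (∀ z, (h z).rep ∈ Cone F) ∧ (∃ z w, h z ≠ h w) ∧
      ∀ z, ∀ ε > 0, ∃ w, projDist (h z) (f w) < ε := by
  have hΨ : HolP univ fun z => Phi (f z).rep := holP_of hf
  set T : Set (Mat (n + 1)) := closure (range fun z => Phi (f z).rep) with hT
  have hTF : T ⊆ TF F := by
    refine closure_minimal ?_ (isCompact_TF hF).isClosed
    rintro _ ⟨z, rfl⟩
    exact ⟨_, hfF z, rfl⟩
  have hTc : IsCompact T := (isCompact_TF hF).of_isClosed_subset isClosed_closure hTF
  obtain ⟨H, hH, hHT, hHne, hHd⟩ := brody_curve hTc (hTF.trans TF_PM) hΨ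
    (fun z => subset_closure ⟨z, rfl⟩) (by
      intro h
      obtain ⟨z, w, hzw⟩ := hne
      apply hzw
      apply proj_ext
      exact (h z).trans (h w).symm)
  have hrep : ∀ z, Phi (toProj (H z)).rep = H z := fun z =>
    Phi_rep_toProj (TF_PM (hTF (hHT z)))
  refine ⟨fun z => toProj (H z), holMap_of hH, bddDer_of (B := 2) (fun z => ?_), fun z => ?_, ?_,
    fun z ε hε => ?_⟩
  · simp only [hrep]
    exact hHd z
  · rw [← Pool.Agent.N155.BB.Phi_mem hF (toProj (H z)).rep_nonzero, hrep]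
    exact hTF (hHT z)
  · push Not at hHne
    obtain ⟨z, hz⟩ := hHne
    refine ⟨z, 0, fun h => hz ?_⟩
    rw [← hrep z, ← hrep 0]
    rw [show toProj (H z) = toProj (H 0) from h]
  · obtain ⟨_, ⟨w, rfl⟩, hw⟩ := Metric.mem_closure_iff.1 (hHT z) ε hε
    refine ⟨w, ?_⟩
    rw [dist_eq_norm] at hw
    change ‖Phi (toProj (H z)).rep - Phi (f w).rep‖ < ε
    rw [hrep]
    exact hw

/-- **Rational points and entire curves in varieties with an immersive family of symmetric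
differentials.** -/
theorem main_immersive (σ : k →+* ℂ) [Finite τ] (F : ι → MvPolynomial (Fin (n + 1)) k)
    (hF : ∀ i, IsForm (F i)) {m : τ → ℕ} (hm : ∀ j, 0 < m j)
    {s : τ → (Fin (n + 1) → ℂ) → (Fin (n + 1) → ℂ) → ℂ}
    (hs : ∀ j, SymForm (fun i => MvPolynomial.map σ (F i)) (m j) (s j))
    (him : Immersive (fun i => MvPolynomial.map σ (F i)) s)
    (Q : κ → MvPolynomial (Fin (n + 1)) k) (hQ : ∀ j, IsForm (Q j))
    (hfin : ∀ (L : Type) [Field L] [NumberField L] [Algebra k L],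
      (Points F L \ Points Q L).Finite) {f : ℂ → ℙ ℂ (Fin (n + 1) → ℂ)} (hf : HolMap f)
    (hfF : ∀ z, (f z).rep ∈ Cone (fun i => MvPolynomial.map σ (F i))) (hne : ∃ z w, f z ≠ f w) :
    ∃ h : ℂ → ℙ ℂ (Fin (n + 1) → ℂ), HolMap h ∧ BoundedDer h ∧
      (∀ z, (h z).rep ∈ Cone (fun i => MvPolynomial.map σ (F i))) ∧ (∃ z w, h z ≠ h w) ∧
      (∀ j z, val (h z).rep (MvPolynomial.map σ (Q j)) = 0) ∧
      ∀ z, ∀ ε > 0, ∃ w, projDist (h z) (f w) < ε := by
  obtain ⟨h, h1, h2, h3, h4, h5⟩ := brody_closure (fun i => isForm_map σ (hF i)) hf hfF hne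
  exact ⟨h, h1, h2, h3, h4, fun j z => bdd_zero σ F hF hm hs him Q hQ hfin h1 h3 h2 h4 j z, h5⟩

end Run7.h177.TA
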